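import Mathlib

/-! Gadgets for the arithmetic Kakeya problem: finite sets of pairs `(d, y)` with distinct `d` for which
`y + w d` takes few values for all slopes `w` of a set `T`. The cost `a / (a - b)` is additive for unions. -/

set_option autoImplicit false

namespace Pool.Agent.V7H31.GS

open Finset

/-- There is a set of `2 ^ a` pairs `(d, y)` with distinct `d` such that `y + w d` takes at most `2 ^ b` values
for every `w ∈ T`. -/
def Gad (T : Set ℚ) (a b : ℕ) : Prop :=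
  ∃ G : Finset (ℚ × ℚ), Set.InjOn Prod.fst (G : Set (ℚ × ℚ)) ∧ G.card = 2 ^ a ∧
    ∀ w ∈ T, (G.image fun p => p.2 + w * p.1).card ≤ 2 ^ b

theorem Gad.of_le {T : Set ℚ} {a b : ℕ} (G : Finset (ℚ × ℚ)) (hG : Set.InjOn Prod.fst (G : Set (ℚ × ℚ)))
    (ha : 2 ^ a ≤ G.card) (hb : ∀ w ∈ T, (G.image fun p => p.2 + w * p.1).card ≤ 2 ^ b) : Gad T a b := by
  obtain ⟨G', h1, h2⟩ := Finset.exists_subset_card_eq ha
  refine ⟨G', hG.mono (by exact_mod_cast h1), h2, fun w hw => ?_⟩
  exact (Finset.card_le_card (Finset.image_subset_image h1)).trans (hb w hw)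

theorem Gad.mono {T T' : Set ℚ} {a b b' : ℕ} (h : Gad T a b) (hT : T' ⊆ T) (hb : b ≤ b') : Gad T' a b' := by
  obtain ⟨G, h1, h2, h3⟩ := h
  exact ⟨G, h1, h2, fun w hw => (h3 w (hT hw)).trans (Nat.pow_le_pow_right (by norm_num) hb)⟩

/-- affine changes of the slopes -/
theorem Gad.affine {T : Set ℚ} {a b : ℕ} (h : Gad T a b) (c e : ℚ) :
    Gad ((fun w => e + c * w) '' T) a b := by
  obtain ⟨G, h1, h2, h3⟩ := h
  refine ⟨G.image fun p => (p.1, c * p.2 - e * p.1), ?_, ?_, ?_⟩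
  · intro p hp p' hp' he
    simp only [Finset.coe_image, Set.mem_image, Finset.mem_coe] at hp hp'
    obtain ⟨x, hx, rfl⟩ := hp
    obtain ⟨x', hx', rfl⟩ := hp'
    have : x = x' := h1 hx hx' he
    rw [this]
  · rw [Finset.card_image_of_injOn, h2]
    intro x hx x' hx' he
    have he' : x.1 = x'.1 := (Prod.mk.inj he).1
    exact h1 hx hx' he'
  · rintro _ ⟨w, hw, rfl⟩
    refine le_trans ?_ (h3 w hw)
    rw [Finset.image_image]
    have : ((fun p : ℚ × ℚ => p.2 + (e + c * w) * p.1) ∘ fun p : ℚ × ℚ => (p.1, c * p.2 - e * p.1)) =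
        (fun z : ℚ => c * z) ∘ fun p : ℚ × ℚ => p.2 + w * p.1 := by
      funext p
      simp only [Function.comp]
      ring
    rw [this, ← Finset.image_image]
    exact Finset.card_image_le

/-- products -/
theorem exists_prod (G₁ G₂ : Finset (ℚ × ℚ)) (h₁ : Set.InjOn Prod.fst (G₁ : Set (ℚ × ℚ)))
    (h₂ : Set.InjOn Prod.fst (G₂ : Set (ℚ × ℚ))) :
    ∃ G : Finset (ℚ × ℚ), Set.InjOn Prod.fst (G : Set (ℚ × ℚ)) ∧ G.card = G₁.card * G₂.card ∧
      ∀ w : ℚ, (G.image fun p => p.2 + w * p.1).card ≤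
        (G₁.image fun p => p.2 + w * p.1).card * (G₂.image fun p => p.2 + w * p.1).card := by
  -- a generic number
  obtain ⟨B, hB⟩ : ∃ B : ℚ, B ∉ ((G₁ ×ˢ G₁) ×ˢ (G₂ ×ˢ G₂)).image
      fun z => (z.1.1.1 - z.1.2.1) / (z.2.2.1 - z.2.1.1) :=
    Infinite.exists_notMem_finset _
  have key : ∀ p ∈ G₁, ∀ p' ∈ G₁, ∀ r ∈ G₂, ∀ r' ∈ G₂,
      p.1 + B * r.1 = p'.1 + B * r'.1 → p = p' ∧ r = r' := by
    intro p hp p' hp' r hr r' hr' he
    by_cases hrr : r.1 = r'.1
    · have hr2 : r = r' := h₂ hr hr' hrr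
      refine ⟨h₁ hp hp' ?_, hr2⟩
      rw [hrr] at he
      linarith
    · exfalso
      apply hB
      rw [Finset.mem_image]
      refine ⟨((p, p'), (r, r')), by simp [hp, hp', hr, hr'], ?_⟩
      have h3 : r'.1 - r.1 ≠ 0 := fun h => hrr (by linarith)
      rw [div_eq_iff h3]
      linarith
  refine ⟨(G₁ ×ˢ G₂).image fun z => (z.1.1 + B * z.2.1, z.1.2 + B * z.2.2), ?_, ?_, ?_⟩
  · intro a ha b hb he
    simp only [Finset.coe_image, Set.mem_image, Finset.mem_coe, Finset.mem_product] at ha hb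
    obtain ⟨⟨p, r⟩, ⟨hp, hr⟩, rfl⟩ := ha
    obtain ⟨⟨p', r'⟩, ⟨hp', hr'⟩, rfl⟩ := hb
    obtain ⟨e1, e2⟩ := key p hp p' hp' r hr r' hr' he
    rw [e1, e2]
  · rw [Finset.card_image_of_injOn, Finset.card_product]
    rintro ⟨p, r⟩ hz ⟨p', r'⟩ hz' he
    simp only [Finset.coe_product, Set.mem_prod, Finset.mem_coe] at hz hz'
    obtain ⟨e1, e2⟩ := key p hz.1 p' hz'.1 r hz.2 r' hz'.2 (congrArg Prod.fst he)
    rw [e1, e2]
  · intro w
    rw [← Finset.card_product, Finset.image_image]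
    refine (Finset.card_le_card ?_).trans (Finset.card_image_le (f := fun z : ℚ × ℚ => z.1 + B * z.2))
    intro x hx
    rw [Finset.mem_image] at hx
    obtain ⟨⟨p, r⟩, hz, rfl⟩ := hx
    rw [Finset.mem_product] at hz
    rw [Finset.mem_image]
    refine ⟨(p.2 + w * p.1, r.2 + w * r.1), ?_, ?_⟩
    · rw [Finset.mem_product]
      exact ⟨Finset.mem_image_of_mem _ hz.1, Finset.mem_image_of_mem _ hz.2⟩
    · simp only [Function.comp]
      ring

/-- powers -/
theorem exists_pow (G : Finset (ℚ × ℚ)) (h : Set.InjOn Prod.fst (G : Set (ℚ × ℚ))) (n : ℕ) :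
    ∃ G' : Finset (ℚ × ℚ), Set.InjOn Prod.fst (G' : Set (ℚ × ℚ)) ∧ G'.card = G.card ^ n ∧
      ∀ w : ℚ, (G'.image fun p => p.2 + w * p.1).card ≤ (G.image fun p => p.2 + w * p.1).card ^ n := by
  induction n with
  | zero =>
    refine ⟨{(0, 0)}, ?_, by simp, fun w => by simp⟩
    intro x hx y hy _
    simp only [Finset.coe_singleton, Set.mem_singleton_iff] at hx hy
    rw [hx, hy]
  | succ n ih =>
    obtain ⟨G', h1, h2, h3⟩ := ih
    obtain ⟨G'', k1, k2, k3⟩ := exists_prod G' G h1 h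
    refine ⟨G'', k1, by rw [k2, h2, pow_succ], fun w => (k3 w).trans ?_⟩
    rw [pow_succ]
    exact Nat.mul_le_mul_right _ (h3 w)

/-- the numbers of values are at most the number of points -/
theorem card_values_le (G : Finset (ℚ × ℚ)) (w : ℚ) : (G.image fun p => p.2 + w * p.1).card ≤ G.card :=
  Finset.card_image_le

/-- `T` has cost at most `s` -/
def Cost (T : Set ℚ) (s : ℚ) : Prop :=
  ∃ a g : ℕ, 0 < g ∧ g ≤ a ∧ Gad T a (a - g) ∧ (a : ℚ) ≤ s * g

theorem Cost.mono {T T' : Set ℚ} {s s' : ℚ} (h : Cost T s) (hT : T' ⊆ T) (hs : s ≤ s') : Cost T' s' := by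
  obtain ⟨a, g, h0, h1, h2, h3⟩ := h
  refine ⟨a, g, h0, h1, h2.mono hT le_rfl, h3.trans ?_⟩
  exact mul_le_mul_of_nonneg_right hs (by positivity)

theorem Cost.affine {T : Set ℚ} {s : ℚ} (h : Cost T s) (c e : ℚ) : Cost ((fun w => e + c * w) '' T) s := by
  obtain ⟨a, g, h0, h1, h2, h3⟩ := h
  exact ⟨a, g, h0, h1, h2.affine c e, h3⟩

/-- a point has cost one -/
theorem Cost.point (c : ℚ) : Cost {c} 1 := by
  refine ⟨1, 1, one_pos, le_rfl, ?_, by norm_num⟩
  refine ⟨{(0, 0), (1, -c)}, ?_, ?_, ?_⟩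
  · intro x hx y hy he
    simp only [Finset.coe_insert, Finset.coe_singleton, Set.mem_insert_iff, Set.mem_singleton_iff] at hx hy
    rcases hx with rfl | rfl <;> rcases hy with rfl | rfl <;> simp_all
  · rw [Finset.card_pair]
    · norm_num
    · intro h
      have := congrArg Prod.fst h
      norm_num at this
  · intro w hw
    rw [Set.mem_singleton_iff] at hw
    subst hw
    rw [Finset.image_insert, Finset.image_singleton]
    norm_num

/-- the cost is subadditive -/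
theorem Cost.union {T₁ T₂ : Set ℚ} {s₁ s₂ : ℚ} (h₁ : Cost T₁ s₁) (h₂ : Cost T₂ s₂) :
    Cost (T₁ ∪ T₂) (s₁ + s₂) := by
  obtain ⟨a₁, g₁, p₁, q₁, ⟨G₁, i₁, c₁, v₁⟩, e₁⟩ := h₁
  obtain ⟨a₂, g₂, p₂, q₂, ⟨G₂, i₂, c₂, v₂⟩, e₂⟩ := h₂
  obtain ⟨H₁, j₁, d₁, u₁⟩ := exists_pow G₁ i₁ g₂
  obtain ⟨H₂, j₂, d₂, u₂⟩ := exists_pow G₂ i₂ g₁
  obtain ⟨G, i, c, v⟩ := exists_prod H₁ H₂ j₁ j₂
  have hc : G.card = 2 ^ (a₁ * g₂ + a₂ * g₁) := by
    rw [c, d₁, d₂, c₁, c₂, ← pow_mul, ← pow_mul, ← pow_add]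
  have hle : g₁ * g₂ ≤ a₁ * g₂ + a₂ * g₁ := by nlinarith
  refine ⟨a₁ * g₂ + a₂ * g₁, g₁ * g₂, Nat.mul_pos p₁ p₂, hle, ⟨G, i, hc, ?_⟩, ?_⟩
  · rintro w (hw | hw)
    · refine (v w).trans ?_
      have h1 : (H₁.image fun p => p.2 + w * p.1).card ≤ 2 ^ ((a₁ - g₁) * g₂) := by
        rw [pow_mul]
        exact (u₁ w).trans (Nat.pow_le_pow_left (v₁ w hw) _)
      have h2 : (H₂.image fun p => p.2 + w * p.1).card ≤ 2 ^ (a₂ * g₁) := by
        refine (card_values_le _ _).trans ?_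
        rw [d₂, c₂, ← pow_mul]
      refine (Nat.mul_le_mul h1 h2).trans ?_
      rw [← pow_add]
      refine Nat.pow_le_pow_right (by norm_num) ?_
      have : (a₁ - g₁) * g₂ + g₁ * g₂ = a₁ * g₂ := by
        rw [← add_mul, Nat.sub_add_cancel q₁]
      omega
    · refine (v w).trans ?_
      have h1 : (H₂.image fun p => p.2 + w * p.1).card ≤ 2 ^ ((a₂ - g₂) * g₁) := by
        rw [pow_mul]
        exact (u₂ w).trans (Nat.pow_le_pow_left (v₂ w hw) _)
      have h2 : (H₁.image fun p => p.2 + w * p.1).card ≤ 2 ^ (a₁ * g₂) := by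
        refine (card_values_le _ _).trans ?_
        rw [d₁, c₁, ← pow_mul]
      refine (Nat.mul_le_mul h2 h1).trans ?_
      rw [← pow_add]
      refine Nat.pow_le_pow_right (by norm_num) ?_
      have : (a₂ - g₂) * g₁ + g₁ * g₂ = a₂ * g₁ := by
        rw [mul_comm g₁ g₂, ← add_mul, Nat.sub_add_cancel q₂]
      omega
  · push_cast
    have h1 := mul_le_mul_of_nonneg_right e₁ (show (0 : ℚ) ≤ g₂ by positivity)
    have h2 := mul_le_mul_of_nonneg_right e₂ (show (0 : ℚ) ≤ g₁ by positivity)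
    nlinarith

/-- finitely many points -/
theorem Cost.add_finset {T : Set ℚ} {s : ℚ} (h : Cost T s) (R : Finset ℚ) :
    Cost (T ∪ (R : Set ℚ)) (s + R.card) := by
  induction R using Finset.induction_on with
  | empty => simpa using h
  | insert x R hx ih =>
    rw [Finset.card_insert_of_notMem hx, Finset.coe_insert]
    refine (ih.union (Cost.point x)).mono ?_ ?_
    · intro y hy
      simp only [Set.mem_union, Set.mem_insert_iff, Finset.mem_coe, Set.mem_singleton_iff] at hy ⊢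
      tauto
    · push_cast
      linarith

/-- many good subsets of `m` elements -/
theorem Cost.partition (m K : ℕ) (s : ℚ) (hm : 0 < m) (hs : 0 ≤ s)
    (hK : ∀ T : Finset ℚ, K ≤ T.card → ∃ T₁ ⊆ T, T₁.card = m ∧ Cost (T₁ : Set ℚ) s) (c : ℚ) (T : Finset ℚ) :
    Cost (insert c (T : Set ℚ)) (1 + s * (T.card / m) + K) := by
  induction hn : T.card using Nat.strong_induction_on generalizing T with
  | _ n ih =>
    subst hn
    by_cases h : K ≤ T.card
    · obtain ⟨T₁, h1, h2, h3⟩ := hK T h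
      have h4 : (T \ T₁).card = T.card - m := by rw [Finset.card_sdiff_of_subset h1, h2]
      have h5 : m ≤ T.card := by
        rw [← h2]
        exact Finset.card_le_card h1
      have h6 := ih (T \ T₁).card (by rw [h4]; omega) (T \ T₁) rfl
      refine (h6.union h3).mono ?_ ?_
      · intro x hx
        simp only [Set.mem_insert_iff, Finset.mem_coe, Set.mem_union, Finset.coe_sdiff, Set.mem_sdiff] at hx ⊢
        tauto
      · rw [h4]
        push_cast [h5]
        have hm' : (m : ℚ) ≠ 0 := by positivity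
        have : ((T.card : ℚ) - m) / m = (T.card : ℚ) / m - 1 := by
          field_simp
        rw [this]
        linarith
    · refine ((Cost.point c).add_finset T).mono ?_ ?_
      · intro x hx
        simpa using hx
      · have h7 : (T.card : ℚ) ≤ K := by exact_mod_cast (not_le.mp h).le
        have h8 : 0 ≤ s * ((T.card : ℚ) / m) := by positivity
        linarith

/-- finite unions of sets of cost at most `s` -/
theorem Cost.iUnion_fin {T₀ : Set ℚ} {s₀ s : ℚ} (h₀ : Cost T₀ s₀) (n : ℕ) (T : Fin n → Set ℚ)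
    (h : ∀ i, Cost (T i) s) : Cost (T₀ ∪ ⋃ i, T i) (s₀ + n * s) := by
  induction n with
  | zero =>
    refine h₀.mono ?_ ?_
    · intro x hx
      simpa using hx
    · simp
  | succ n ih =>
    refine ((ih (fun i => T i.castSucc) fun i => h _).union (h (Fin.last n))).mono ?_ ?_
    · intro x hx
      simp only [Set.mem_union, Set.mem_iUnion] at hx ⊢
      rcases hx with hx | ⟨i, hi⟩
      · exact Or.inl (Or.inl hx)
      · induction i using Fin.lastCases with
        | last => exact Or.inr hi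
        | cast i => exact Or.inl (Or.inr ⟨i, hi⟩)
    · push_cast
      linarith

end Pool.Agent.V7H31.GS
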