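import Pool.Agent.V7H31.GS.Fin
import Pool.Agent.V7H10.AK

/-! Lower bounds for all sets of slopes. -/

set_option autoImplicit false

namespace Pool.Agent.V7H31.GS

open Finset

theorem good8 (m : ℕ) (hm : 1 ≤ m) (T : Finset ℚ) (hT : 2 ^ 2 ^ (m + 5) ≤ T.card) :
    ∃ T₁ ⊆ T, T₁.card = m + 2 ∧ Cost (T₁ : Set ℚ) 8 := by
  obtain ⟨T₁, h1, h2, h3⟩ := Pool.Agent.V7H10.AK.good_subset (D := 2) (e := 6) hm (by norm_num) T
    ((Pool.Agent.V7H10.AK.K_le hm).trans hT)
  refine ⟨T₁, h1, h2, ?_⟩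
  obtain ⟨n, rfl⟩ : ∃ n, m = n + 1 := ⟨m - 1, by omega⟩
  have hp : 0 < 2 ^ n := by positivity
  have e1 : 2 * 6 * 2 ^ (n + 1) = 24 * 2 ^ n := by ring
  have e2 : (6 + 1) * (2 + 1) * 2 ^ (n + 1 - 1) = 21 * 2 ^ n := by
    rw [Nat.add_sub_cancel]
  rw [e1, e2] at h3
  refine ⟨24 * 2 ^ n, 3 * 2 ^ n, by omega, by omega, ?_, ?_⟩
  · have e3 : 24 * 2 ^ n - 3 * 2 ^ n = 21 * 2 ^ n := by omega
    rw [e3]
    exact h3
  · push_cast
    linarith

theorem card_inv (S : Finset ℚ) : (S.image fun r : ℚ => 1 / (r + 1)).card ≤ S.card := Finset.card_image_le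

/-- every set of `k` slopes -/
theorem universal_nat (S : Finset ℚ) (hS : (-1 : ℚ) ∉ S) (m : ℕ) (hm : 1 ≤ m) (hk : 2 ^ 2 ^ (m + 6) ≤ S.card)
    (κ : ℝ) (hκ : κ < 1 + (m + 2) / (9 * S.card)) (C : ℝ) :
    ∃ A : Finset (ℤ × ℤ), C * (big S A : ℝ) ^ κ < (proj (-1) A).card := by
  classical
  have hk0 : 0 < S.card := lt_of_lt_of_le (by positivity) hk
  have h1 := Cost.partition (m + 2) (2 ^ 2 ^ (m + 5)) 8 (by omega) (by norm_num) (fun T hT => good8 m hm T hT) 0
    (S.image fun r : ℚ => 1 / (r + 1))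
  have hKm : (m + 2) * 2 ^ 2 ^ (m + 5) ≤ S.card := by
    refine le_trans ?_ hk
    have h2 : m + 2 ≤ 2 ^ 2 ^ (m + 5) := by
      have h3 : m + 2 ≤ m + 5 := by omega
      have h4 : m + 5 < 2 ^ (m + 5) := Nat.lt_two_pow_self
      have h5 : 2 ^ (m + 5) < 2 ^ 2 ^ (m + 5) := Nat.lt_two_pow_self
      omega
    calc (m + 2) * 2 ^ 2 ^ (m + 5) ≤ 2 ^ 2 ^ (m + 5) * 2 ^ 2 ^ (m + 5) := Nat.mul_le_mul_right _ h2
      _ = 2 ^ 2 ^ (m + 6) := by
        rw [← pow_add]
        congr 1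
        ring
  have hmq : (0 : ℚ) < (m : ℚ) + 2 := by positivity
  have hkq : (0 : ℚ) < (S.card : ℚ) := by exact_mod_cast hk0
  have h2 : Cost (insert 0 ((S.image fun r : ℚ => 1 / (r + 1) : Finset ℚ) : Set ℚ))
      (1 + 9 * (S.card / (m + 2))) := by
    refine h1.mono le_rfl ?_
    have h3 : (((S.image fun r : ℚ => 1 / (r + 1)).card : ℕ) : ℚ) ≤ S.card := by exact_mod_cast card_inv S
    have h4 : ((m + 2 : ℕ) : ℚ) * ((2 ^ 2 ^ (m + 5) : ℕ) : ℚ) ≤ S.card := by exact_mod_cast hKm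
    have h5 : ((2 ^ 2 ^ (m + 5) : ℕ) : ℚ) ≤ S.card / (m + 2) := by
      rw [le_div_iff₀ hmq]
      push_cast at h4 ⊢
      linarith
    have h6 : (((S.image fun r : ℚ => 1 / (r + 1)).card : ℕ) : ℚ) / ((m + 2 : ℕ) : ℚ) ≤ S.card / (m + 2) := by
      push_cast
      exact div_le_div_of_nonneg_right h3 hmq.le
    linarith
  refine fails S hS _ h2 κ ?_ C
  push_cast
  have hmr : (0 : ℝ) < (m : ℝ) + 2 := by positivity
  have hkr : (0 : ℝ) < (S.card : ℝ) := by exact_mod_cast hk0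
  have h3 : κ * (9 * ((S.card : ℝ) / (m + 2))) < (1 + (m + 2) / (9 * S.card)) * (9 * ((S.card : ℝ) / (m + 2))) :=
    mul_lt_mul_of_pos_right hκ (by positivity)
  have h4 : (1 + ((m : ℝ) + 2) / (9 * S.card)) * (9 * ((S.card : ℝ) / (m + 2))) = 1 + 9 * ((S.card : ℝ) / (m + 2)) := by
    field_simp
    ring
  have h5 : κ * (1 + 9 * ((S.card : ℝ) / (m + 2)) - 1) = κ * (9 * ((S.card : ℝ) / (m + 2))) := by ring
  rw [h5]
  linarith

/-- the trivial bound -/
theorem universal_triv (S : Finset ℚ) (hS : (-1 : ℚ) ∉ S) (κ : ℝ) (hκ : κ < 1 + 1 / S.card) (C : ℝ) :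
    ∃ A : Finset (ℤ × ℤ), C * (big S A : ℝ) ^ κ < (proj (-1) A).card := by
  classical
  have h1 := (Cost.point 0).add_finset (S.image fun r : ℚ => 1 / (r + 1))
  have h2 : Cost (insert 0 ((S.image fun r : ℚ => 1 / (r + 1) : Finset ℚ) : Set ℚ)) (1 + S.card) := by
    refine h1.mono ?_ ?_
    · intro x hx
      simpa using hx
    · have h3 : (((S.image fun r : ℚ => 1 / (r + 1)).card : ℕ) : ℚ) ≤ S.card := by exact_mod_cast card_inv S
      linarith
  refine fails S hS _ h2 κ ?_ C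
  push_cast
  rcases Nat.eq_zero_or_pos S.card with h0 | h0
  · rw [h0]
    norm_num
  · have hkr : (0 : ℝ) < (S.card : ℝ) := by exact_mod_cast h0
    have h3 := mul_lt_mul_of_pos_right hκ hkr
    have h4 : (1 + 1 / (S.card : ℝ)) * S.card = S.card + 1 := by
      field_simp
    linarith

/-- every set of `k` slopes: no exponent below `1 + log log k / (20 k)` -/
theorem universal (S : Finset ℚ) (hS : (-1 : ℚ) ∉ S) (κ : ℝ)
    (hκ : κ < 1 + Real.log (Real.log S.card) / (20 * S.card)) (C : ℝ) :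
    ∃ A : Finset (ℤ × ℤ), C * (big S A : ℝ) ^ κ < (proj (-1) A).card := by
  classical
  set k := S.card with hk
  set n := Nat.log 2 (Nat.log 2 k) with hn
  by_cases hk4 : k < 4
  · -- few slopes
    refine universal_triv S hS κ (lt_of_lt_of_le hκ ?_) C
    rw [← hk]
    rcases Nat.eq_zero_or_pos k with h0 | h0
    · rw [h0]
      norm_num
    have hkr : (0 : ℝ) < (k : ℝ) := by exact_mod_cast h0
    have h1 : Real.log (Real.log k) ≤ 20 := by
      have h2 : Real.log k ≤ k := (Real.log_le_sub_one_of_pos hkr).trans (by linarith)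
      have h3 : 0 ≤ Real.log k := Real.log_natCast_nonneg k
      rcases h3.eq_or_lt with h4 | h4
      · rw [← h4]
        norm_num
      · have h5 : Real.log (Real.log k) ≤ Real.log k := (Real.log_le_sub_one_of_pos h4).trans (by linarith)
        have h6 : (k : ℝ) < 4 := by exact_mod_cast hk4
        linarith
    have h2 : Real.log (Real.log k) / (20 * k) ≤ 20 / (20 * k) := div_le_div_of_nonneg_right h1 (by positivity)
    have h3 : (20 : ℝ) / (20 * k) = 1 / k := by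
      field_simp
    linarith
  rw [not_lt] at hk4
  have hkr : (0 : ℝ) < (k : ℝ) := by exact_mod_cast (by omega : 0 < k)
  have hl2 : Nat.log 2 k ≠ 0 := by
    have : 1 ≤ Nat.log 2 k := Nat.log_pos (by norm_num) (by omega)
    omega
  have h1 : 2 ^ n ≤ Nat.log 2 k := Nat.pow_log_le_self 2 hl2
  have h2 : Nat.log 2 k < 2 ^ (n + 1) := Nat.lt_pow_succ_log_self (by norm_num) _
  have h3 : 2 ^ Nat.log 2 k ≤ k := Nat.pow_log_le_self 2 (by omega)
  have h4 : k < 2 ^ (Nat.log 2 k + 1) := Nat.lt_pow_succ_log_self (by norm_num) _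
  have h5 : k < 2 ^ 2 ^ (n + 1) := lt_of_lt_of_le h4 (Nat.pow_le_pow_right (by norm_num) h2)
  have hl : Real.log 2 ≤ 0.7 := by
    have := Real.log_two_lt_d9
    linarith
  have hl0 : 0 < Real.log 2 := Real.log_pos (by norm_num)
  have h6 : Real.log (Real.log k) ≤ 0.7 * (n + 1) := by
    have a1 : Real.log k ≤ 2 ^ (n + 1) * Real.log 2 := by
      have : (k : ℝ) ≤ 2 ^ 2 ^ (n + 1) := by exact_mod_cast h5.le
      have h := Real.log_le_log hkr this
      rw [Real.log_pow] at h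
      push_cast at h
      exact h
    have a2 : Real.log k ≤ 2 ^ (n + 1) := by
      refine a1.trans ?_
      have : (0 : ℝ) < 2 ^ (n + 1) := by positivity
      nlinarith
    have a3 : 0 < Real.log k := Real.log_pos (by exact_mod_cast (by omega : 1 < k))
    have a4 := Real.log_le_log a3 a2
    rw [Real.log_pow] at a4
    push_cast at a4
    have : (0 : ℝ) ≤ (n : ℝ) + 1 := by positivity
    nlinarith
  by_cases hn7 : n ≤ 6
  · refine universal_triv S hS κ (lt_of_lt_of_le hκ ?_) C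
    rw [← hk]
    have h7 : (n : ℝ) ≤ 6 := by exact_mod_cast hn7
    have h8 : Real.log (Real.log k) ≤ 20 := by linarith
    have h9 : Real.log (Real.log k) / (20 * k) ≤ 20 / (20 * k) := div_le_div_of_nonneg_right h8 (by positivity)
    have h10 : (20 : ℝ) / (20 * k) = 1 / k := by
      field_simp
    linarith
  · rw [not_le] at hn7
    obtain ⟨m, hm6⟩ : ∃ m, n = m + 6 := ⟨n - 6, by omega⟩
    rw [hm6] at h1 h6 hn7
    have hm : 1 ≤ m := by omega
    have h7 : 2 ^ 2 ^ (m + 6) ≤ S.card := (Nat.pow_le_pow_right (by norm_num) h1).trans h3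
    refine universal_nat S hS m hm h7 κ (lt_of_lt_of_le hκ ?_) C
    rw [← hk]
    have hmr : (1 : ℝ) ≤ (m : ℝ) := by exact_mod_cast hm
    have h8 : Real.log (Real.log k) / (20 * k) ≤ (m + 2) / (9 * k) := by
      rw [div_le_div_iff₀ (by positivity) (by positivity)]
      push_cast at h6
      have h9 : 9 * Real.log (Real.log k) ≤ 20 * (m + 2) := by linarith
      nlinarith
    linarith

/-- large sets of slopes contain useless sets of `m` slopes -/
theorem ramsey (m : ℕ) (κ : ℝ) (hκ : κ < 2) : ∃ K : ℕ, ∀ R : Finset ℚ, (-1 : ℚ) ∉ R → K ≤ R.card →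
    ∃ S ⊆ R, S.card = m ∧ ∀ C : ℝ, ∃ A : Finset (ℤ × ℤ), C * (big S A : ℝ) ^ κ < (proj (-1) A).card := by
  classical
  -- a large `n` with `(1 + 1 / n) ^ 2 κ < 2`
  obtain ⟨n, hn1, hn⟩ : ∃ n : ℕ, 1 ≤ n ∧ κ * ((n : ℝ) + 1) ^ 2 < 2 * n ^ 2 ∧ ((n : ℝ) + 1) ^ 2 < 2 * n ^ 2 := by
    set κ' := max κ 1 with hκ'
    have hk2 : κ' < 2 := max_lt hκ (by norm_num)
    obtain ⟨n, hn⟩ := exists_nat_gt (8 / (2 - κ') + 1)
    have h0 : 0 < 2 - κ' := by linarith
    have h1 : 8 / (2 - κ') < n := by linarith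
    have h2 : 8 < n * (2 - κ') := by rwa [div_lt_iff₀ h0] at h1
    have h3 : (1 : ℝ) ≤ n := by
      have : 0 < 8 / (2 - κ') := by positivity
      linarith
    have h4 : κ' * ((n : ℝ) + 1) ^ 2 < 2 * n ^ 2 := by nlinarith [le_max_right κ 1]
    refine ⟨n, by exact_mod_cast h3, ?_, ?_⟩
    · have := mul_le_mul_of_nonneg_right (le_max_left κ 1) (sq_nonneg ((n : ℝ) + 1))
      linarith
    · have := mul_le_mul_of_nonneg_right (le_max_right κ 1) (sq_nonneg ((n : ℝ) + 1))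
      linarith
  refine ⟨Pool.Agent.V7H10.AK.K (m + 1) n n, fun R hR hK => ?_⟩
  have hinj : Set.InjOn (fun r : ℚ => 1 / (r + 1)) (R : Set ℚ) := by
    intro x _ y _ hxy
    simp only [one_div, inv_inj, add_left_inj] at hxy
    exact hxy
  set T := R.image fun r : ℚ => 1 / (r + 1) with hT
  have hTc : T.card = R.card := Finset.card_image_of_injOn hinj
  have h0 : (0 : ℚ) ∉ T := by
    rw [hT, Finset.mem_image]
    rintro ⟨r, hr, he⟩
    have h1 : r + 1 ≠ 0 := by
      intro h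
      have : r = -1 := by linarith
      exact hR (this ▸ hr)
    exact one_div_ne_zero h1 he
  obtain ⟨T₁, h1, h2, h3⟩ := Pool.Agent.V7H10.AK.good_zero (m := m + 1) (D := n) (e := n) (by omega) hn1 T h0
    (by rw [hTc]; exact hK)
  obtain ⟨T₂, h4, h5⟩ := Finset.exists_subset_card_eq (show m ≤ T₁.card by omega)
  -- the slopes
  set S := R.filter fun r => 1 / (r + 1) ∈ T₂ with hS
  have hST : S.image (fun r : ℚ => 1 / (r + 1)) = T₂ := by
    ext w
    rw [Finset.mem_image]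
    constructor
    · rintro ⟨r, hr, rfl⟩
      exact (Finset.mem_filter.mp hr).2
    · intro hw
      have := h1 (h4 hw)
      rw [hT, Finset.mem_image] at this
      obtain ⟨r, hr, rfl⟩ := this
      exact ⟨r, Finset.mem_filter.mpr ⟨hr, hw⟩, rfl⟩
  have hSc : S.card = m := by
    rw [← h5, ← hST, Finset.card_image_of_injOn (hinj.mono _)]
    intro x hx
    exact Finset.filter_subset _ _ (Finset.mem_coe.mp hx)
  refine ⟨S, Finset.filter_subset _ _, hSc, fun C => ?_⟩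
  have hm1 : m + 1 - 1 = m := rfl
  rw [hm1] at h3
  have hlt : (n + 1) * (n + 1) * n ^ m < 2 * n * n ^ (m + 1) := by
    have h6 : (n + 1) ^ 2 < 2 * n ^ 2 := by exact_mod_cast hn.2
    have h7 : 0 < n ^ m := by positivity
    have h8 : 2 * n * n ^ (m + 1) = 2 * n ^ 2 * n ^ m := by ring
    rw [h8, ← pow_two]
    exact Nat.mul_lt_mul_of_pos_right h6 h7
  set a := 2 * n * n ^ (m + 1) with ha
  set b := (n + 1) * (n + 1) * n ^ m with hb
  have hab : a - (a - b) = b := by omega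
  have hcost : Cost (insert 0 ((S.image fun r : ℚ => 1 / (r + 1) : Finset ℚ) : Set ℚ)) ((a : ℚ) / (a - b : ℕ)) := by
    refine ⟨a, a - b, by omega, by omega, ?_, ?_⟩
    · rw [hab, hST]
      refine h3.mono ?_ le_rfl
      intro x hx
      rcases hx with hx | hx
      · exact Or.inl hx
      · exact Or.inr (by exact_mod_cast h4 (Finset.mem_coe.mp hx))
    · have : ((a - b : ℕ) : ℚ) ≠ 0 := by
        have : 0 < a - b := by omega
        positivity
      field_simp
      rfl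
  have hSR : (-1 : ℚ) ∉ S := fun h => hR (Finset.filter_subset _ _ h)
  refine fails S hSR _ hcost κ ?_ C
  have hg : (0 : ℝ) < ((a - b : ℕ) : ℝ) := by
    have : 0 < a - b := by omega
    exact_mod_cast this
  have hbR : ((a - b : ℕ) : ℝ) = a - b := Nat.cast_sub hlt.le
  push_cast
  have e1 : (a : ℝ) / ((a - b : ℕ) : ℝ) - 1 = b / ((a - b : ℕ) : ℝ) := by
    rw [hbR]
    rw [hbR] at hg
    field_simp
    ring
  rw [e1, ← mul_div_assoc]
  apply div_lt_div_of_pos_right _ hg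
  have h6 : (0 : ℝ) < (n : ℝ) ^ m := by
    have : (0 : ℝ) < n := by exact_mod_cast hn1
    positivity
  have h7 : (a : ℝ) = 2 * n ^ 2 * n ^ m := by
    rw [ha]
    push_cast
    ring
  have h8 : (b : ℝ) = ((n : ℝ) + 1) ^ 2 * n ^ m := by
    rw [hb]
    push_cast
    ring
  rw [h7, h8, ← mul_assoc]
  exact mul_lt_mul_of_pos_right hn.1 h6

/-- geometric progressions -/
theorem progressions (n : ℕ) (hn : 1 ≤ n) (a c q : Fin n → ℚ) (S : Finset ℚ) (hS : (-1 : ℚ) ∉ S)
    (h : ∀ r ∈ S, ∃ (j : Fin n) (i : ℤ), 1 / (r + 1) = a j + c j * q j ^ i) (κ : ℝ)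
    (hκ : κ < 1 + 1 / (5 * n)) (C : ℝ) :
    ∃ A : Finset (ℤ × ℤ), C * (big S A : ℝ) ^ κ < (proj (-1) A).card := by
  classical
  set T := S.image fun r : ℚ => 1 / (r + 1) with hT
  have h1 : ∀ j : Fin n, Cost ((T.filter fun w => ∃ i : ℤ, w = a j + c j * q j ^ i : Finset ℚ) : Set ℚ) 5 :=
    fun j => cost_progression (a j) (c j) (q j) _ fun w hw => (Finset.mem_filter.mp hw).2
  have h2 := Cost.iUnion_fin (Cost.point 0) n
    (fun j => ((T.filter fun w => ∃ i : ℤ, w = a j + c j * q j ^ i : Finset ℚ) : Set ℚ)) h1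
  have h3 : Cost (insert 0 (T : Set ℚ)) (1 + n * 5) := by
    refine h2.mono ?_ le_rfl
    intro w hw
    rcases hw with hw | hw
    · exact Or.inl hw
    · right
      rw [Set.mem_iUnion]
      have hw' : w ∈ T := Finset.mem_coe.mp hw
      rw [hT, Finset.mem_image] at hw'
      obtain ⟨r, hr, rfl⟩ := hw'
      obtain ⟨j, i, hi⟩ := h r hr
      exact ⟨j, by
        rw [Finset.mem_coe, Finset.mem_filter]
        exact ⟨Finset.mem_coe.mp hw, i, hi⟩⟩
  refine fails S hS _ h3 κ ?_ C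
  push_cast
  have hnr : (0 : ℝ) < (n : ℝ) := by exact_mod_cast hn
  have h4 := mul_lt_mul_of_pos_right hκ (show (0 : ℝ) < n * 5 by positivity)
  have h5 : (1 + 1 / (5 * (n : ℝ))) * (n * 5) = 1 + n * 5 := by
    field_simp
    ring
  have h6 : κ * (1 + (n : ℝ) * 5 - 1) = κ * (n * 5) := by ring
  rw [h6]
  linarith

end Pool.Agent.V7H31.GS
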