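import Pool.Agent.V7H31.GS.RanQ
import Pool.Agent.V7H31.GS.Main

/-! Random slopes: the theorem. -/

set_option autoImplicit false

namespace Pool.Agent.V7H31.GS

open Finset

theorem not_mem_slopes (Y : Finset ℚ) (hY : (-1 : ℚ) ∉ Y) {k : ℕ} (s : Fin k → ℚ)
    (hs : s ∈ Fintype.piFinset fun _ : Fin k => Y) : (-1 : ℚ) ∉ slopes s := by
  intro h
  unfold slopes at h
  rw [Finset.mem_image] at h
  obtain ⟨i, _, hi⟩ := h
  rw [Fintype.mem_piFinset] at hs
  exact hY (hi ▸ hs i)

/-- from the cost to the exponent -/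
theorem fails_sqrt (S : Finset ℚ) (hS : (-1 : ℚ) ∉ S) (k g B : ℕ) (τ : ℚ) (hB : 1 ≤ B) (hg : 1 ≤ g)
    (hgk : g ^ 2 ≤ k) (hτ : τ ≤ 20 * B * g)
    (h : Cost (insert 0 ((S.image fun r : ℚ => 1 / (r + 1) : Finset ℚ) : Set ℚ)) (1 + τ))
    (κ : ℝ) (hκ : κ < 1 + 1 / (20 * B * Real.sqrt k)) : Fails S κ := by
  have h1 : Cost (insert 0 ((S.image fun r : ℚ => 1 / (r + 1) : Finset ℚ) : Set ℚ)) (1 + 20 * B * g) :=
    h.mono le_rfl (by linarith)
  refine fails S hS _ h1 κ ?_
  push_cast
  have hgr : (1 : ℝ) ≤ g := by exact_mod_cast hg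
  have hBr : (1 : ℝ) ≤ B := by exact_mod_cast hB
  have h2 : (g : ℝ) ≤ Real.sqrt k := by
    apply Real.le_sqrt_of_sq_le
    exact_mod_cast hgk
  have h3 : 1 / (20 * B * Real.sqrt k) ≤ 1 / (20 * B * (g : ℝ)) := by
    apply one_div_le_one_div_of_le (by positivity)
    exact mul_le_mul_of_nonneg_left h2 (by positivity)
  have h4 : κ < 1 + 1 / (20 * B * (g : ℝ)) := by linarith
  have h5 := mul_lt_mul_of_pos_right h4 (show (0 : ℝ) < 20 * B * g by positivity)
  have h6 : (1 + 1 / (20 * B * (g : ℝ))) * (20 * B * g) = 1 + 20 * B * g := by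
    field_simp
    ring
  have h7 : κ * (1 + 20 * B * (g : ℝ) - 1) = κ * (20 * B * g) := by ring
  rw [h7]
  linarith

theorem sq_le_two_pow (g : ℕ) : (g + 1) ^ 2 + g + 3 ≤ 2 ^ (g + 4) := by
  induction g with
  | zero => norm_num
  | succ g ih =>
    have h1 : 2 ^ (g + 1 + 4) = 2 * 2 ^ (g + 4) := by ring
    rw [h1]
    nlinarith

open Classical in
/-- **Random slopes.** Let the slopes in `Y` have height at most `H`, where `H` is at most
quasi-polynomial in the number of elements of `Y`. For all but a proportion `2 ^ (-k)` of the `k`-tuples of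
elements of `Y` all exponents below `1 + 1 / (20 B √k)` fail. -/
theorem random (B : ℕ) (hB : 1 ≤ B) (Y : Finset ℚ) (hY1 : (-1 : ℚ) ∉ Y) (H : ℕ)
    (hYH : ∀ r ∈ Y, |r.num| ≤ H ∧ r.den ≤ H) (hH : H + 1 ≤ 2 ^ (Nat.log 2 Y.card + 1) ^ B) (k : ℕ)
    (hk : 1 ≤ k) :
    ((Fintype.piFinset fun _ : Fin k => Y).filter fun s : Fin k → ℚ =>
      ¬ ∀ κ : ℝ, κ < 1 + 1 / (20 * B * Real.sqrt k) → Fails (slopes s) κ).card * 2 ^ k ≤ Y.card ^ k := by
  set W := Fintype.piFinset fun _ : Fin k => Y with hW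
  -- if all are good there is nothing to prove
  have hall : (∀ s ∈ W, ∀ κ : ℝ, κ < 1 + 1 / (20 * B * Real.sqrt k) → Fails (slopes s) κ) →
      (W.filter fun s : Fin k → ℚ => ¬ ∀ κ : ℝ, κ < 1 + 1 / (20 * B * Real.sqrt k) → Fails (slopes s) κ).card *
        2 ^ k ≤ Y.card ^ k := by
    intro h
    have : (W.filter fun s : Fin k → ℚ =>
        ¬ ∀ κ : ℝ, κ < 1 + 1 / (20 * B * Real.sqrt k) → Fails (slopes s) κ) = ∅ := by
      rw [Finset.filter_eq_empty_iff]
      intro s hs
      rw [not_not]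
      exact h s hs
    rw [this]
    simp
  have hBr : (1 : ℝ) ≤ B := by exact_mod_cast hB
  by_cases hk4 : k ≤ 400
  · apply hall
    intro s hs κ hκ C
    refine universal_triv (slopes s) (not_mem_slopes Y hY1 s hs) κ (lt_of_lt_of_le hκ ?_) C
    have hkr : (0 : ℝ) < k := by exact_mod_cast hk
    have h1 : (slopes s).card ≤ k := by
      unfold slopes
      exact Finset.card_image_le.trans (by simp)
    have h2 : 0 < (slopes s).card := by
      rw [Finset.card_pos]
      unfold slopes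
      exact ⟨_, Finset.mem_image_of_mem _ (mem_univ (⟨0, hk⟩ : Fin k))⟩
    have h3 : ((slopes s).card : ℝ) ≤ 20 * B * Real.sqrt k := by
      have h4 : ((slopes s).card : ℝ) ≤ k := by exact_mod_cast h1
      have h5 : Real.sqrt k ≤ 20 := by
        rw [show (20 : ℝ) = Real.sqrt 400 by
          rw [show (400 : ℝ) = 20 ^ 2 by norm_num, Real.sqrt_sq (by norm_num)]]
        apply Real.sqrt_le_sqrt
        exact_mod_cast hk4
      have h6 : Real.sqrt k * Real.sqrt k = k := Real.mul_self_sqrt hkr.le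
      have h7 : 0 ≤ Real.sqrt k := Real.sqrt_nonneg _
      have h8 : (k : ℝ) ≤ 20 * Real.sqrt k := by nlinarith
      have h9 : 20 * Real.sqrt k ≤ 20 * B * Real.sqrt k := by nlinarith
      linarith
    have h4 : (0 : ℝ) < (slopes s).card := by exact_mod_cast h2
    have := one_div_le_one_div_of_le h4 h3
    linarith
  rcases Y.eq_empty_or_nonempty with hY0 | hY0
  · apply hall
    intro s hs
    exfalso
    rw [hW, Fintype.mem_piFinset] at hs
    have := hs ⟨0, hk⟩
    rw [hY0] at this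
    exact absurd this (Finset.notMem_empty _)
  have hN0 : 0 < Y.card := Finset.card_pos.mpr hY0
  rw [not_le] at hk4
  set g := Nat.sqrt k with hg
  have hg1 : g ^ 2 ≤ k := by
    rw [sq]
    exact Nat.sqrt_le k
  have hg2 : k < (g + 1) ^ 2 := Nat.lt_succ_sqrt' k
  have hg20 : 20 ≤ g := by
    rw [hg, Nat.le_sqrt]
    omega
  set n := k / g with hn
  set r := k % g with hr
  have hk' : k = g * n + r := (Nat.div_add_mod k g).symm
  have hrg : r < g := Nat.mod_lt _ (by omega)
  have hng : n ≤ g + 2 := by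
    by_contra hcon
    have : g * (g + 3) ≤ g * n := Nat.mul_le_mul_left _ (by omega)
    nlinarith
  have h4 : (20 : ℚ) ≤ g := by exact_mod_cast hg20
  have hBq : (1 : ℚ) ≤ B := by exact_mod_cast hB
  by_cases hHl : n * 2 ^ 2 ^ (g + 4) * 2 ^ k ≤ Y.card
  · -- a large set
    have hsub : (W.filter fun s : Fin k → ℚ =>
        ¬ ∀ κ : ℝ, κ < 1 + 1 / (20 * B * Real.sqrt k) → Fails (slopes s) κ) ⊆
        (range n).biUnion fun i => W.filter (BadB (g - 1) 2 6 (g * i)) := by
      intro s hs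
      rw [Finset.mem_filter] at hs
      rw [Finset.mem_biUnion]
      by_contra hcon
      push Not at hcon
      apply hs.2
      intro κ hκ
      have h1 := cost_blocks (g := g) (n := n) (r := r) (by omega) hk' s (by
        intro i hi hb
        apply hcon i (Finset.mem_range.mpr hi)
        rw [Finset.mem_filter]
        exact ⟨hs.1, hb⟩)
      refine fails_sqrt (slopes s) (not_mem_slopes Y hY1 s hs.1) k g B (8 * n + r) hB (by omega) hg1 ?_
        (h1.mono le_rfl (by linarith)) κ hκ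
      have h2 : (n : ℚ) ≤ g + 2 := by exact_mod_cast hng
      have h3 : (r : ℚ) ≤ g := by exact_mod_cast hrg.le
      have h5 : (20 : ℚ) * g ≤ 20 * B * g := by nlinarith
      linarith
    have h1 : ((range n).biUnion fun i => W.filter (BadB (g - 1) 2 6 (g * i))).card ≤
        n * (2 ^ 2 ^ (g + 4) * Y.card ^ (k - 1)) := by
      refine Finset.card_biUnion_le.trans ?_
      have h2 : ∀ i ∈ range n, (W.filter (BadB (g - 1) 2 6 (g * i))).card ≤
          2 ^ 2 ^ (g + 4) * Y.card ^ (k - 1) := by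
        intro i hi
        rw [Finset.mem_range] at hi
        have h3 : g * i + (g - 1) < k := by
          have h4 : g * (i + 1) ≤ g * n := Nat.mul_le_mul_left _ hi
          have h5 : g * (i + 1) = g * i + g := by ring
          omega
        have h4 := card_bad_block Y hY0 (k := k) (m := g - 1) (by omega) (g * i) h3
        have h5 : g - 1 + 5 = g + 4 := by omega
        rw [h5] at h4
        exact h4
      refine (Finset.sum_le_sum h2).trans ?_
      rw [Finset.sum_const, Finset.card_range, smul_eq_mul]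
    have h2 := (Finset.card_le_card hsub).trans h1
    calc (W.filter fun s : Fin k → ℚ =>
          ¬ ∀ κ : ℝ, κ < 1 + 1 / (20 * B * Real.sqrt k) → Fails (slopes s) κ).card * 2 ^ k
        ≤ n * (2 ^ 2 ^ (g + 4) * Y.card ^ (k - 1)) * 2 ^ k := Nat.mul_le_mul_right _ h2
      _ = (n * 2 ^ 2 ^ (g + 4) * 2 ^ k) * Y.card ^ (k - 1) := by ring
      _ ≤ Y.card * Y.card ^ (k - 1) := Nat.mul_le_mul_right _ hHl
      _ = Y.card ^ k := by
        rw [← pow_succ']
        congr 1
        omega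
  · -- a small set
    rw [not_le] at hHl
    apply hall
    intro s hs κ hκ
    have h1 : Y.card < 2 ^ 2 ^ (g + 5) := by
      have h2 : n * 2 ^ k ≤ 2 ^ 2 ^ (g + 4) := by
        have h3 : n ≤ 2 ^ (g + 2) := by
          have : g + 2 < 2 ^ (g + 2) := Nat.lt_two_pow_self
          omega
        calc n * 2 ^ k ≤ 2 ^ (g + 2) * 2 ^ k := Nat.mul_le_mul_right _ h3
          _ = 2 ^ (g + 2 + k) := by rw [← pow_add]
          _ ≤ 2 ^ 2 ^ (g + 4) := by
            apply Nat.pow_le_pow_right (by norm_num)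
            have := sq_le_two_pow g
            omega
      have h3 : n * 2 ^ 2 ^ (g + 4) * 2 ^ k ≤ 2 ^ 2 ^ (g + 5) := by
        calc n * 2 ^ 2 ^ (g + 4) * 2 ^ k = (n * 2 ^ k) * 2 ^ 2 ^ (g + 4) := by ring
          _ ≤ 2 ^ 2 ^ (g + 4) * 2 ^ 2 ^ (g + 4) := Nat.mul_le_mul_right _ h2
          _ = 2 ^ 2 ^ (g + 5) := by
            rw [← pow_add]
            congr 1
            ring
      omega
    set M := (g + 5) * B with hM
    have hM25 : 2 ≤ M := by
      rw [hM]
      nlinarith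
    have h2 : (Nat.log 2 Y.card + 1) ^ B ≤ 2 ^ M := by
      have h3 : Nat.log 2 Y.card < 2 ^ (g + 5) := Nat.log_lt_of_lt_pow hN0.ne' h1
      rw [hM, pow_mul]
      exact Nat.pow_le_pow_left h3 _
    have h3 : H + 1 ≤ 2 ^ 2 ^ M := hH.trans (Nat.pow_le_pow_right (by norm_num) h2)
    have h5 : 4 * H + 1 ≤ 2 ^ (2 ^ M + 2) := by
      rw [pow_add]
      omega
    have h6 : 9 * (2 ^ M + 2) + 3 ≤ 2 ^ (M + 4) := by
      have h7 : 2 ^ (M + 4) = 16 * 2 ^ M := by ring
      have h8 : 2 ^ 2 ≤ 2 ^ M := Nat.pow_le_pow_right (by norm_num) hM25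
      omega
    have h7 := cost_small Y hY1 hYH (l := 2 ^ M + 2) (u := M + 4) (by omega) h5 h6 s hs
    refine fails_sqrt (slopes s) (not_mem_slopes Y hY1 s hs) k g B (9 * (M + 4 : ℕ)) hB (by omega) hg1 ?_ ?_ κ hκ
    · rw [hM]
      push_cast
      nlinarith
    · exact h7

end Pool.Agent.V7H31.GS
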