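import Pool.Agent.V7H31.GS.Fin

/-! Subadditivity: from the failure of an exponent to the cost. -/

set_option autoImplicit false

namespace Pool.Agent.V7H31.GS

open Finset

/-- the exponent `κ` fails for `S`, up to every constant -/
def Fails (S : Finset ℚ) (κ : ℝ) : Prop :=
  ∀ C : ℝ, ∃ A : Finset (ℤ × ℤ), C * (big S A : ℝ) ^ κ < (proj (-1) A).card

/-- a set of points with distinct `x - y`, in the coordinates `(x - y, y)` -/
theorem exists_points (A : Finset (ℤ × ℤ)) : ∃ G : Finset (ℚ × ℚ), Set.InjOn Prod.fst (G : Set (ℚ × ℚ)) ∧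
    G.card = (proj (-1) A).card ∧ (G.image fun p => p.2 + 0 * p.1).card ≤ (projInf A).card ∧
    ∀ r : ℚ, r ≠ -1 → (G.image fun p => p.2 + 1 / (r + 1) * p.1).card ≤ (proj r A).card := by
  classical
  obtain ⟨A', h1, h2, h3⟩ : ∃ A' ⊆ A, Set.InjOn (fun p : ℤ × ℤ => (p.1 : ℚ) + (-1) * (p.2 : ℚ)) (A' : Set (ℤ × ℤ)) ∧
      A'.image (fun p : ℤ × ℤ => (p.1 : ℚ) + (-1) * (p.2 : ℚ)) = proj (-1) A := by
    obtain ⟨A', h1, h2⟩ := Finset.exists_subset_injOn_image_eq_of_surjOn (s := (A : Set (ℤ × ℤ)))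
      (t := proj (-1) A) (f := fun p : ℤ × ℤ => (p.1 : ℚ) + (-1) * (p.2 : ℚ)) (by
        intro z hz
        have : z ∈ proj (-1) A := hz
        unfold proj at this
        rw [Finset.mem_image] at this
        obtain ⟨p, hp, he⟩ := this
        exact ⟨p, hp, he⟩)
    exact ⟨A', by exact_mod_cast h1, h2.1, h2.2⟩
  set φ : ℤ × ℤ → ℚ × ℚ := fun p => ((p.1 : ℚ) + (-1) * (p.2 : ℚ), (p.2 : ℚ)) with hφ
  refine ⟨A'.image φ, ?_, ?_, ?_, ?_⟩
  · intro x hx y hy he
    simp only [Finset.coe_image, Set.mem_image] at hx hy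
    obtain ⟨p, hp, rfl⟩ := hx
    obtain ⟨p', hp', rfl⟩ := hy
    have : p = p' := h2 hp hp' he
    rw [this]
  · rw [← h3, Finset.card_image_of_injOn h2, Finset.card_image_of_injOn]
    intro p hp p' hp' he
    exact h2 hp hp' (Prod.mk.inj he).1
  · rw [Finset.image_image]
    apply Finset.card_le_card
    intro z hz
    rw [Finset.mem_image] at hz
    obtain ⟨p, hp, rfl⟩ := hz
    unfold projInf
    rw [Finset.mem_image]
    refine ⟨p, h1 hp, ?_⟩
    simp only [Function.comp, hφ]
    ring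
  · intro r hr
    have hr' : r + 1 ≠ 0 := fun h => hr (by linarith)
    rw [Finset.image_image]
    have e : (A'.image ((fun p : ℚ × ℚ => p.2 + 1 / (r + 1) * p.1) ∘ φ)) =
        (A'.image fun p : ℤ × ℤ => (p.1 : ℚ) + r * (p.2 : ℚ)).image fun z => z / (r + 1) := by
      rw [Finset.image_image]
      apply Finset.image_congr
      intro p _
      simp only [Function.comp, hφ]
      field_simp
      ring
    rw [e]
    refine Finset.card_image_le.trans ?_
    unfold proj
    exact Finset.card_le_card (Finset.image_subset_image h1)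

theorem cost_of_fails (S : Finset ℚ) (hS : (-1 : ℚ) ∉ S) (κ : ℝ) (hκ : 1 < κ) (h : Fails S κ) (s : ℚ)
    (hs : κ / (κ - 1) < s) : Cost (insert 0 ((S.image fun r : ℚ => 1 / (r + 1) : Finset ℚ) : Set ℚ)) s := by
  classical
  obtain ⟨A, hA⟩ := h 1
  rw [one_mul] at hA
  set M := big S A with hM
  obtain ⟨G, i, c, v0, v1⟩ := exists_points A
  set N := G.card with hN
  rw [← c] at hA
  have hk1 : 0 < κ - 1 := by linarith
  -- `M ≥ 1`
  have hN0 : 0 < N := by
    rcases Nat.eq_zero_or_pos N with h0 | h0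
    · rw [h0] at hA
      have : (0 : ℝ) ≤ (M : ℝ) ^ κ := by positivity
      push_cast at hA
      linarith
    · exact h0
  have hM1 : 1 ≤ M := by
    have h1 : 0 < (G.image fun p => p.2 + 0 * p.1).card := by
      rw [Finset.card_pos]
      exact (Finset.card_pos.mp hN0).image _
    have h2 : (projInf A).card ≤ M := le_max_left _ _
    omega
  have hMr : (1 : ℝ) ≤ M := by exact_mod_cast hM1
  have hNr : (1 : ℝ) < N := lt_of_le_of_lt (Real.one_le_rpow hMr (by linarith)) hA
  have hvals : ∀ w ∈ (insert 0 ((S.image fun r : ℚ => 1 / (r + 1) : Finset ℚ) : Set ℚ) : Set ℚ),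
      (G.image fun p => p.2 + w * p.1).card ≤ M := by
    intro w hw
    rcases hw with rfl | hw
    · exact v0.trans (le_max_left _ _)
    · rw [Finset.mem_coe, Finset.mem_image] at hw
      obtain ⟨r, hr, rfl⟩ := hw
      have hr1 : r ≠ -1 := by
        rintro rfl
        exact hS hr
      refine (v1 r hr1).trans (le_trans ?_ (le_max_right _ _))
      exact Finset.le_sup (f := fun r => (proj r A).card) hr
  -- logarithms to base two
  set x := Real.logb 2 N with hx
  set y := Real.logb 2 M with hy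
  have hx0 : 0 < x := Real.logb_pos (by norm_num) hNr
  have hy0 : 0 ≤ y := Real.logb_nonneg (by norm_num) hMr
  have hxy : κ * y < x := by
    have h1 : Real.logb 2 ((M : ℝ) ^ κ) < Real.logb 2 N :=
      Real.logb_lt_logb (by norm_num) (by positivity) hA
    rwa [Real.logb_rpow_eq_mul_logb_of_pos (by positivity)] at h1
  have hs0 : (0 : ℝ) < s := lt_trans (by positivity) hs
  have hsκ : κ < s * (κ - 1) := by rwa [div_lt_iff₀ hk1] at hs
  -- `x < s (x - y)`
  have hkey : x < s * (x - y) := by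
    have h1 : κ * x < s * (κ - 1) * x := mul_lt_mul_of_pos_right hsκ hx0
    have h2 : s * (κ * y) < s * x := mul_lt_mul_of_pos_left hxy hs0
    have h3 : κ * x < κ * (s * (x - y)) := by nlinarith
    exact lt_of_mul_lt_mul_left h3 (by linarith)
  set θ := s * (x - y) - x with hθ
  have hθ0 : 0 < θ := by rw [hθ]; linarith
  obtain ⟨n, hn⟩ := exists_nat_gt ((2 * s + 2) / θ + 2 / (x - y) + 1)
  have hxy0 : 0 < x - y := by
    by_contra hcon
    have : s * (x - y) ≤ 0 := mul_nonpos_of_nonneg_of_nonpos hs0.le (not_lt.mp hcon)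
    linarith
  have hn1 : (2 * s + 2) / θ < n := by
    have : 0 < 2 / (x - y) := by positivity
    linarith
  have hn2 : 2 / (x - y) < n := by
    have : 0 < (2 * (s : ℝ) + 2) / θ := by positivity
    linarith
  rw [div_lt_iff₀ hθ0] at hn1
  rw [div_lt_iff₀ hxy0] at hn2
  obtain ⟨G', i', c', v'⟩ := exists_pow G i n
  set a := Nat.log 2 (N ^ n) with ha
  set b := Nat.clog 2 (M ^ n) with hb
  have hNn : N ^ n ≠ 0 := by positivity
  have ha1 : 2 ^ a ≤ G'.card := by
    rw [c']
    exact Nat.pow_log_le_self 2 hNn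
  have ha2 : (a : ℝ) ≤ n * x := by
    have h1 : ((2 ^ a : ℕ) : ℝ) ≤ ((N ^ n : ℕ) : ℝ) := by
      exact_mod_cast Nat.pow_log_le_self 2 hNn
    have h2 := Real.logb_le_logb_of_le (b := 2) (by norm_num) (by positivity) h1
    push_cast at h2
    rw [Real.logb_pow, Real.logb_pow, Real.logb_self_eq_one (by norm_num), mul_one] at h2
    exact h2
  have ha3 : n * x < a + 1 := by
    have h1 : ((N ^ n : ℕ) : ℝ) < ((2 ^ (a + 1) : ℕ) : ℝ) := by
      exact_mod_cast Nat.lt_pow_succ_log_self (by norm_num) _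
    have h2 := Real.logb_lt_logb (b := 2) (by norm_num) (by positivity) h1
    push_cast at h2
    rw [Real.logb_pow, Real.logb_pow, Real.logb_self_eq_one (by norm_num), mul_one] at h2
    push_cast at h2
    exact h2
  have hb1 : M ^ n ≤ 2 ^ b := Nat.le_pow_clog (by norm_num) _
  have hb2 : (b : ℝ) < n * y + 1 := by
    rcases Nat.eq_zero_or_pos b with h0 | h0
    · rw [h0]
      push_cast
      positivity
    · have h1 : 2 ^ (b - 1) < M ^ n := Nat.pow_pred_clog_lt_self (by norm_num) (by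
        by_contra hcon
        have h2 : b = 0 := by
          rw [hb]
          exact Nat.clog_of_right_le_one (by omega) _
        omega)
      have h2 : ((2 ^ (b - 1) : ℕ) : ℝ) < ((M ^ n : ℕ) : ℝ) := by exact_mod_cast h1
      have h3 := Real.logb_lt_logb (b := 2) (by norm_num) (by positivity) h2
      push_cast at h3
      rw [Real.logb_pow, Real.logb_pow, Real.logb_self_eq_one (by norm_num), mul_one,
        Nat.cast_sub (by omega)] at h3
      push_cast at h3
      linarith
  have hba : b < a := by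
    have : (b : ℝ) < a := by nlinarith
    exact_mod_cast this
  refine ⟨a, a - b, by omega, by omega, ?_, ?_⟩
  · have e : a - (a - b) = b := by omega
    rw [e]
    refine Gad.of_le G' i' ha1 fun w hw => ?_
    exact (v' w).trans ((Nat.pow_le_pow_left (hvals w hw) _).trans hb1)
  · have h1 : (a : ℝ) ≤ s * ((a - b : ℕ) : ℝ) := by
      rw [Nat.cast_sub hba.le]
      have h2 : (n : ℝ) * x - 1 - (n * y + 1) ≤ (a : ℝ) - b := by linarith
      have h3 : s * ((n : ℝ) * x - 1 - (n * y + 1)) ≤ s * ((a : ℝ) - b) := mul_le_mul_of_nonneg_left h2 hs0.le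
      have h4 : s * ((n : ℝ) * x - 1 - (n * y + 1)) = n * (s * (x - y)) - 2 * s := by ring
      have h5 : (n : ℝ) * (s * (x - y)) = n * θ + n * x := by
        rw [hθ]
        ring
      linarith
    exact_mod_cast h1

theorem Cost.iUnion_sum (n : ℕ) : ∀ (T : Fin (n + 1) → Set ℚ) (s : Fin (n + 1) → ℚ),
    (∀ j, Cost (T j) (s j)) → Cost (⋃ j, T j) (∑ j, s j) := by
  induction n with
  | zero =>
    intro T s h
    refine (h 0).mono ?_ (by simp)
    intro x hx
    rw [Set.mem_iUnion] at hx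
    obtain ⟨j, hj⟩ := hx
    have : j = 0 := Fin.ext (by omega)
    rwa [this] at hj
  | succ n ih =>
    intro T s h
    refine ((ih (fun j => T j.castSucc) (fun j => s j.castSucc) fun j => h _).union (h (Fin.last _))).mono ?_ ?_
    · intro x hx
      rw [Set.mem_iUnion] at hx
      obtain ⟨j, hj⟩ := hx
      rw [Set.mem_union, Set.mem_iUnion]
      induction j using Fin.lastCases with
      | last => exact Or.inr hj
      | cast j => exact Or.inl ⟨j, hj⟩
    · exact (Fin.sum_univ_castSucc s).ge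

/-- The number `κ / (κ - 1)` is subadditive. -/
theorem subadditive (n : ℕ) (S : Fin n → Finset ℚ) (hS : ∀ j, (-1 : ℚ) ∉ S j) (κ : Fin n → ℝ)
    (hκ : ∀ j, 1 < κ j) (h : ∀ j, Fails (S j) (κ j)) (κ₀ : ℝ) (h0 : 1 < κ₀)
    (hsum : ∑ j, κ j / (κ j - 1) < κ₀ / (κ₀ - 1)) : Fails (univ.biUnion S) κ₀ := by
  classical
  have h01 : 0 < κ₀ - 1 := by linarith
  have hSu : (-1 : ℚ) ∉ univ.biUnion S := by
    intro hm
    rw [Finset.mem_biUnion] at hm
    obtain ⟨j, _, hj⟩ := hm
    exact hS j hj
  cases n with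
  | zero =>
    refine fails _ hSu 1 ((Cost.point 0).mono ?_ le_rfl) κ₀ ?_
    · intro w hw
      rcases hw with hw | hw
      · exact hw
      · simp at hw
    · norm_num
  | succ n =>
    set δ := (κ₀ / (κ₀ - 1) - ∑ j, κ j / (κ j - 1)) / (n + 1) with hδ
    have hδ0 : 0 < δ := by
      apply div_pos (by linarith) (by positivity)
    have hex : ∀ j, ∃ s : ℚ, κ j / (κ j - 1) < s ∧ (s : ℝ) < κ j / (κ j - 1) + δ := fun j =>
      exists_rat_btwn (by linarith)
    choose s hs1 hs2 using hex
    have hc : ∀ j, Cost (insert 0 (((S j).image fun r : ℚ => 1 / (r + 1) : Finset ℚ) : Set ℚ)) (s j) :=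
      fun j => cost_of_fails (S j) (hS j) (κ j) (hκ j) (h j) (s j) (hs1 j)
    have hu := Cost.iUnion_sum n _ s hc
    refine fails _ hSu (∑ j, s j) (hu.mono ?_ le_rfl) κ₀ ?_
    · intro w hw
      rw [Set.mem_iUnion]
      rcases hw with hw | hw
      · exact ⟨0, Or.inl hw⟩
      · rw [Finset.mem_coe, Finset.mem_image] at hw
        obtain ⟨r, hr, rfl⟩ := hw
        rw [Finset.mem_biUnion] at hr
        obtain ⟨j, _, hj⟩ := hr
        refine ⟨j, Or.inr ?_⟩
        rw [Finset.mem_coe, Finset.mem_image]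
        exact ⟨r, hj, rfl⟩
    · push_cast
      have h1 : ∑ j, (s j : ℝ) < κ₀ / (κ₀ - 1) := by
        have h2 : ∑ j, (s j : ℝ) < ∑ j : Fin (n + 1), (κ j / (κ j - 1) + δ) :=
          Finset.sum_lt_sum_of_nonempty univ_nonempty fun j _ => hs2 j
        rw [Finset.sum_add_distrib, Finset.sum_const, Finset.card_univ, Fintype.card_fin] at h2
        have h3 : (n + 1) • δ = κ₀ / (κ₀ - 1) - ∑ j, κ j / (κ j - 1) := by
          rw [nsmul_eq_mul, hδ]
          push_cast
          field_simp
        rw [h3] at h2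
        linarith
      rw [lt_div_iff₀ h01] at h1
      linarith

/-- one class of a partition of a good set of slopes is good -/
theorem partition_good (n : ℕ) (S : Fin n → Finset ℚ) (hS : ∀ j, (-1 : ℚ) ∉ S j) (ε : ℝ) (hε : 0 < ε)
    (hn : (n - 1) * ε < 1) (h : ¬ Fails (univ.biUnion S) (1 + ε)) :
    ∃ j, ∀ κ : ℝ, 1 + n * ε / (1 - (n - 1) * ε) < κ → ¬ Fails (S j) κ := by
  classical
  by_contra hcon
  push Not at hcon
  choose κ hκ1 hκ2 using hcon
  apply h
  have hd : 0 < 1 - ((n : ℝ) - 1) * ε := by linarith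
  rcases Nat.eq_zero_or_pos n with h0 | h0
  · subst h0
    refine subadditive 0 S hS κ (fun j => j.elim0) (fun j => j.elim0) _ (by linarith) ?_
    simp only [univ_eq_empty, sum_empty]
    have : 1 + ε - 1 = ε := by ring
    rw [this]
    positivity
  have hnr : (0 : ℝ) < n := by exact_mod_cast h0
  have hk1 : ∀ j, 1 < κ j := fun j => by
    have : 0 < n * ε / (1 - ((n : ℝ) - 1) * ε) := by positivity
    have := hκ1 j
    linarith
  refine subadditive n S hS κ hk1 hκ2 _ (by linarith) ?_
  have h1 : ∀ j, κ j / (κ j - 1) < (1 + ε) / (n * ε) := by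
    intro j
    have h2 : 0 < κ j - 1 := by linarith [hk1 j]
    rw [div_lt_div_iff₀ h2 (by positivity)]
    have h3 : n * ε / (1 - ((n : ℝ) - 1) * ε) < κ j - 1 := by linarith [hκ1 j]
    rw [div_lt_iff₀ hd] at h3
    nlinarith
  have hne : (univ : Finset (Fin n)).Nonempty := ⟨⟨0, h0⟩, mem_univ _⟩
  have h2 := Finset.sum_lt_sum_of_nonempty hne fun j _ => h1 j
  rw [Finset.sum_const, Finset.card_univ, Fintype.card_fin, nsmul_eq_mul] at h2
  have h3 : (n : ℝ) * ((1 + ε) / (n * ε)) = (1 + ε) / (1 + ε - 1) := by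
    have : 1 + ε - 1 = ε := by ring
    rw [this]
    field_simp
  rw [← h3]
  exact h2

end Pool.Agent.V7H31.GS
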