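import Pool.Agent.V7H31.GS.GP

/-! From the cost of the slopes `1 / (r + 1)` to the failure of the inequality over `ℤ × ℤ`. -/

set_option autoImplicit false

namespace Pool.Agent.V7H31.GS

open Finset

/-- `π_r` -/
def proj (r : ℚ) (A : Finset (ℤ × ℤ)) : Finset ℚ :=
  A.image (fun p : ℤ × ℤ => (p.1 : ℚ) + r * (p.2 : ℚ))

/-- `π_∞` -/
def projInf (A : Finset (ℤ × ℤ)) : Finset ℚ := A.image (fun p : ℤ × ℤ => (p.2 : ℚ))

/-- the largest projection -/
def big (S : Finset ℚ) (A : Finset (ℤ × ℤ)) : ℕ :=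
  max (projInf A).card (S.sup fun r => (proj r A).card)

/-- clearing denominators -/
theorem exists_int (G : Finset (ℚ × ℚ)) (h : Set.InjOn Prod.fst (G : Set (ℚ × ℚ))) (hne : G.Nonempty) :
    ∃ A : Finset (ℤ × ℤ), A.Nonempty ∧ (proj (-1) A).card = G.card ∧
      (projInf A).card ≤ (G.image fun p => p.2 + 0 * p.1).card ∧
      ∀ r : ℚ, r ≠ -1 → (proj r A).card ≤ (G.image fun p => p.2 + 1 / (r + 1) * p.1).card := by
  classical
  obtain ⟨b, hb⟩ := IsLocalization.exist_integer_multiples_of_finset (nonZeroDivisors ℤ)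
    (G.image (fun p => p.1 + p.2) ∪ G.image (fun p : ℚ × ℚ => p.2))
  have hb0 : ((b : ℤ) : ℚ) ≠ 0 := by
    have := nonZeroDivisors.coe_ne_zero b
    exact_mod_cast this
  have h1 : ∀ p ∈ G, ∃ x : ℤ, (x : ℚ) = (b : ℤ) * (p.1 + p.2) := by
    intro p hp
    obtain ⟨x, hx⟩ := hb (p.1 + p.2) (Finset.mem_union_left _ (Finset.mem_image_of_mem _ hp))
    refine ⟨x, ?_⟩
    simpa [zsmul_eq_mul, mul_add] using hx
  have h2 : ∀ p ∈ G, ∃ y : ℤ, (y : ℚ) = (b : ℤ) * p.2 := by
    intro p hp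
    obtain ⟨y, hy⟩ := hb p.2 (Finset.mem_union_right _ (Finset.mem_image_of_mem _ hp))
    refine ⟨y, ?_⟩
    simpa [zsmul_eq_mul] using hy
  choose! X hX using h1
  choose! Y hY using h2
  refine ⟨G.image fun p => (X p, Y p), hne.image _, ?_, ?_, ?_⟩
  · unfold proj
    rw [Finset.image_image, Finset.card_image_of_injOn]
    intro p hp p' hp' he
    simp only [Function.comp] at he
    rw [hX p hp, hY p hp, hX p' hp', hY p' hp'] at he
    apply h hp hp'
    have h3 : ((b : ℤ) : ℚ) * p.1 = (b : ℤ) * p'.1 := by linarith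
    exact mul_left_cancel₀ hb0 h3
  · unfold projInf
    rw [Finset.image_image]
    have : G.image ((fun p : ℤ × ℤ => (p.2 : ℚ)) ∘ fun p => (X p, Y p)) =
        (G.image fun p => p.2 + 0 * p.1).image fun z => ((b : ℤ) : ℚ) * z := by
      rw [Finset.image_image]
      apply Finset.image_congr
      intro p hp
      simp only [Function.comp]
      rw [hY p hp]
      ring
    rw [this]
    exact Finset.card_image_le
  · intro r hr
    unfold proj
    rw [Finset.image_image]
    have hr' : r + 1 ≠ 0 := fun h => hr (by linarith)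
    have : G.image ((fun p : ℤ × ℤ => (p.1 : ℚ) + r * (p.2 : ℚ)) ∘ fun p => (X p, Y p)) =
        (G.image fun p => p.2 + 1 / (r + 1) * p.1).image fun z => ((b : ℤ) : ℚ) * (r + 1) * z := by
      rw [Finset.image_image]
      apply Finset.image_congr
      intro p hp
      simp only [Function.comp]
      rw [hX p hp, hY p hp]
      field_simp
      ring
    rw [this]
    exact Finset.card_image_le

/-- If the slopes have cost at most `σ`, no exponent below `σ / (σ - 1)` is possible. -/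
theorem fails (S : Finset ℚ) (hS : (-1 : ℚ) ∉ S) (σ : ℚ)
    (h : Cost (insert 0 ((S.image fun r => 1 / (r + 1) : Finset ℚ) : Set ℚ)) σ) (κ : ℝ)
    (hκ : κ * ((σ : ℝ) - 1) < σ) (C : ℝ) :
    ∃ A : Finset (ℤ × ℤ), C * (big S A : ℝ) ^ κ < (proj (-1) A).card := by
  classical
  obtain ⟨a, g, hg, hga, ⟨G, i, c, v⟩, hs⟩ := h
  have ha : 0 < a := lt_of_lt_of_le hg hga
  have hσ : (0 : ℝ) < σ := by
    by_contra hcon
    have h1 : (σ : ℚ) ≤ 0 := by exact_mod_cast not_lt.mp hcon
    have h2 : (a : ℚ) ≤ 0 := hs.trans (mul_nonpos_of_nonpos_of_nonneg h1 (by positivity))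
    have h3 : (0 : ℚ) < a := by exact_mod_cast ha
    linarith
  set b := a - g with hb
  have hbR : (b : ℝ) = a - g := by
    rw [hb, Nat.cast_sub hga]
  have hsR : (a : ℝ) ≤ σ * g := by exact_mod_cast hs
  set κ' : ℝ := max κ 0 with hκ'
  have hk0 : 0 ≤ κ' := le_max_right _ _
  have key : κ' * b < a := by
    rcases le_or_gt κ 0 with hk | hk
    · rw [hκ', max_eq_right hk, zero_mul]
      exact_mod_cast ha
    · rw [hκ', max_eq_left hk.le]
      have h1 : (σ : ℝ) * b ≤ (σ - 1) * a := by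
        rw [hbR]
        nlinarith
      have haR : (0 : ℝ) < a := by exact_mod_cast ha
      have h2 : κ * (σ * b) ≤ κ * ((σ - 1) * a) := mul_le_mul_of_nonneg_left h1 hk.le
      have h3 : κ * ((σ - 1) * a) < σ * a := by
        have := mul_lt_mul_of_pos_right hκ haR
        nlinarith
      have h4 : σ * (κ * b) < σ * a := by nlinarith
      exact lt_of_mul_lt_mul_left h4 hσ.le
  -- a large power
  set θ : ℝ := a - κ' * b with hθ
  have hθ0 : 0 < θ := by rw [hθ]; linarith
  have h2θ : 1 < (2 : ℝ) ^ θ := Real.one_lt_rpow (by norm_num) hθ0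
  obtain ⟨n, hn⟩ := pow_unbounded_of_one_lt (max C 0) h2θ
  obtain ⟨G', i', c', v'⟩ := exists_pow G i n
  have hc' : G'.card = 2 ^ (a * n) := by rw [c', c, ← pow_mul]
  have hne : G'.Nonempty := by
    rw [← Finset.card_pos, hc']
    positivity
  obtain ⟨A, hA, hA1, hA2, hA3⟩ := exists_int G' i' hne
  refine ⟨A, ?_⟩
  have hval : ∀ w ∈ (insert 0 ((S.image fun r => 1 / (r + 1) : Finset ℚ) : Set ℚ) : Set ℚ),
      (G'.image fun p => p.2 + w * p.1).card ≤ 2 ^ (b * n) := by
    intro w hw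
    rw [pow_mul]
    exact (v' w).trans (Nat.pow_le_pow_left (v w hw) _)
  have hbig : big S A ≤ 2 ^ (b * n) := by
    unfold big
    apply max_le
    · exact hA2.trans (hval 0 (Set.mem_insert _ _))
    · apply Finset.sup_le
      intro r hr
      refine (hA3 r ?_).trans (hval _ ?_)
      · rintro rfl
        exact hS hr
      · apply Set.mem_insert_of_mem
        rw [Finset.mem_coe]
        exact Finset.mem_image_of_mem (fun r : ℚ => 1 / (r + 1)) hr
  have hbig1 : 1 ≤ big S A := by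
    unfold big
    apply le_max_of_le_left
    rw [Nat.one_le_iff_ne_zero, Ne, Finset.card_eq_zero]
    exact (hA.image _).ne_empty
  have hb1 : (1 : ℝ) ≤ (big S A : ℝ) := by exact_mod_cast hbig1
  have hb2 : (big S A : ℝ) ≤ (2 : ℝ) ^ (b * n) := by exact_mod_cast hbig
  have h1 : (big S A : ℝ) ^ κ ≤ ((2 : ℝ) ^ (b * n)) ^ κ' :=
    (Real.rpow_le_rpow_of_exponent_le hb1 (le_max_left _ _)).trans
      (Real.rpow_le_rpow (by positivity) hb2 hk0)
  rw [hA1, hc']
  push_cast
  have h2 : ((2 : ℝ) ^ (b * n)) ^ κ' * ((2 : ℝ) ^ θ) ^ n = 2 ^ (a * n) := by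
    rw [← Real.rpow_natCast 2 (b * n), ← Real.rpow_mul (by norm_num), ← Real.rpow_natCast _ n,
      ← Real.rpow_mul (by norm_num), ← Real.rpow_add (by norm_num), ← Real.rpow_natCast 2 (a * n)]
    congr 1
    push_cast
    rw [hθ]
    ring
  have hpos : (0 : ℝ) < ((2 : ℝ) ^ (b * n)) ^ κ' := by positivity
  calc C * (big S A : ℝ) ^ κ ≤ max C 0 * (big S A : ℝ) ^ κ :=
        mul_le_mul_of_nonneg_right (le_max_left _ _) (by positivity)
    _ ≤ max C 0 * ((2 : ℝ) ^ (b * n)) ^ κ' := mul_le_mul_of_nonneg_left h1 (le_max_right _ _)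
    _ < ((2 : ℝ) ^ θ) ^ n * ((2 : ℝ) ^ (b * n)) ^ κ' := mul_lt_mul_of_pos_right hn hpos
    _ = 2 ^ (a * n) := by rw [mul_comm, h2]

end Pool.Agent.V7H31.GS
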