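import Pool.Agent.V7H31.GS.Gad

/-! A finite part of a geometric progression has cost at most five (digit reversal). -/

set_option autoImplicit false

namespace Pool.Agent.V7H31.GS

open Finset

/-- counting the values of the partial sums of `f` if a part of the terms cancel in pairs -/
theorem card_sums_le {ι : Type} [DecidableEq ι] (U H R : Finset ι) (f : ι → ℚ) (τ : ι → ι)
    (hH : H ⊆ U) (hτ : ∀ h ∈ H, τ h ∈ U) (hR : R ⊆ U) (inj : Set.InjOn τ (H : Set ι))
    (d1 : Disjoint H (H.image τ)) (d2 : Disjoint (H ∪ H.image τ) R) (hf : ∀ h ∈ H, f (τ h) = -f h)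
    (h0 : ∀ l ∈ U, l ∉ H ∪ H.image τ ∪ R → f l = 0) :
    (U.powerset.image fun u => ∑ l ∈ u, f l).card ≤ 3 ^ H.card * 2 ^ R.card := by
  classical
  set V : Finset (({x // x ∈ H}) → ℤ) := Fintype.piFinset fun _ => ({-1, 0, 1} : Finset ℤ) with hV
  have hVc : V.card = 3 ^ H.card := by
    rw [hV, Fintype.card_piFinset]
    simp
  have hsub : (U.powerset.image fun u => ∑ l ∈ u, f l) ⊆
      (V ×ˢ R.powerset).image fun z => ∑ h : {x // x ∈ H}, (z.1 h : ℚ) * f h + ∑ l ∈ z.2, f l := by
    intro x hx
    rw [Finset.mem_image] at hx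
    obtain ⟨u, hu, rfl⟩ := hx
    rw [Finset.mem_powerset] at hu
    rw [Finset.mem_image]
    refine ⟨(fun h => (if (h : ι) ∈ u then 1 else 0) - (if τ h ∈ u then 1 else 0), u ∩ R), ?_, ?_⟩
    · rw [Finset.mem_product]
      refine ⟨?_, by simp⟩
      rw [hV, Fintype.mem_piFinset]
      intro h
      by_cases h1 : (h : ι) ∈ u <;> by_cases h2 : τ h ∈ u <;> simp [h1, h2]
    · have e1 : ∑ l ∈ u, f l = ∑ l ∈ H ∪ H.image τ ∪ R, (if l ∈ u then f l else 0) := by
        rw [← Finset.sum_filter]
        symm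
        apply Finset.sum_subset
        · intro l hl
          exact (Finset.mem_filter.mp hl).2
        · intro l hl hl2
          apply h0 l (hu hl)
          intro h3
          exact hl2 (Finset.mem_filter.mpr ⟨h3, hl⟩)
      have e2 : ∑ h : {x // x ∈ H}, (((if (h : ι) ∈ u then 1 else 0) - (if τ h ∈ u then 1 else 0) : ℤ) : ℚ) * f h
          = ∑ h ∈ H, ((if h ∈ u then f h else 0) + (if τ h ∈ u then f (τ h) else 0)) := by
        rw [← Finset.sum_coe_sort H]
        apply Finset.sum_congr rfl
        intro h _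
        rw [hf h h.2]
        by_cases h1 : (h : ι) ∈ u <;> by_cases h2 : τ h ∈ u <;> simp [h1, h2]
      have e3 : ∑ l ∈ u ∩ R, f l = ∑ l ∈ R, (if l ∈ u then f l else 0) := by
        rw [← Finset.sum_filter]
        apply Finset.sum_congr _ fun _ _ => rfl
        ext l
        simp only [Finset.mem_inter, Finset.mem_filter]
        tauto
      simp only
      rw [e1, e2, e3, Finset.sum_union d2, Finset.sum_union d1, Finset.sum_image inj,
        Finset.sum_add_distrib]
  refine (Finset.card_le_card hsub).trans (Finset.card_image_le.trans ?_)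
  rw [Finset.card_product, Finset.card_powerset, hVc]

/-- digit sums are distinct -/
theorem digits_inj (q : ℚ) (hq : 2 ≤ q.num.natAbs) (n : ℕ) : ∀ c : ℕ → ℤ, (∀ l, |c l| ≤ 1) →
    ∑ l ∈ range n, (c l : ℚ) * q ^ l = 0 → ∀ l < n, c l = 0 := by
  have hq0 : q ≠ 0 := by
    rintro rfl
    simp at hq
  have hden : (q.den : ℚ) ≠ 0 := by exact_mod_cast q.den_nz
  have hqd : q * q.den = q.num := Rat.mul_den_eq_num q
  have hint : ∀ (n : ℕ) (c : ℕ → ℤ), ∃ Z : ℤ, (∑ l ∈ range n, (c l : ℚ) * q ^ l) * (q.den : ℚ) ^ n = Z := by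
    intro n
    induction n with
    | zero => intro c; exact ⟨0, by simp⟩
    | succ n ih =>
      intro c
      obtain ⟨Z, hZ⟩ := ih fun l => c (l + 1)
      refine ⟨c 0 * (q.den : ℤ) ^ (n + 1) + q.num * Z, ?_⟩
      rw [Finset.sum_range_succ']
      have : ∑ l ∈ range n, (c (l + 1) : ℚ) * q ^ (l + 1) = q * ∑ l ∈ range n, (c (l + 1) : ℚ) * q ^ l := by
        rw [Finset.mul_sum]
        apply Finset.sum_congr rfl
        intro l _
        ring
      rw [this]
      push_cast
      rw [← hZ, ← hqd]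
      ring
  induction n with
  | zero => intro c _ _ l hl; omega
  | succ n ih =>
    intro c hc hs
    rw [Finset.sum_range_succ'] at hs
    have hS : ∑ l ∈ range n, (c (l + 1) : ℚ) * q ^ (l + 1) = q * ∑ l ∈ range n, (c (l + 1) : ℚ) * q ^ l := by
      rw [Finset.mul_sum]
      apply Finset.sum_congr rfl
      intro l _
      ring
    rw [hS, pow_zero, mul_one] at hs
    obtain ⟨Z, hZ⟩ := hint n fun l => c (l + 1)
    have h1 : q.num * Z = -(c 0 * (q.den : ℤ) ^ (n + 1)) := by
      have : ((q.num * Z : ℤ) : ℚ) = ((-(c 0 * (q.den : ℤ) ^ (n + 1)) : ℤ) : ℚ) := by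
        push_cast
        rw [← hZ, ← hqd]
        have h2 := hs
        have h3 : (c 0 : ℚ) = -(q * ∑ l ∈ range n, (c (l + 1) : ℚ) * q ^ l) := by linarith
        rw [h3]
        ring
      exact_mod_cast this
    have h2 : q.num ∣ c 0 * (q.den : ℤ) ^ (n + 1) := by
      rw [← dvd_neg]
      exact Dvd.intro _ h1
    have h3 : IsCoprime q.num ((q.den : ℤ) ^ (n + 1)) := by
      apply IsCoprime.pow_right
      have := q.reduced
      rw [Int.isCoprime_iff_gcd_eq_one]
      simpa [Int.gcd] using this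
    have h4 : q.num ∣ c 0 := h3.dvd_of_dvd_mul_right h2
    have h5 : c 0 = 0 := by
      by_contra hne
      have h6 := Int.natAbs_le_of_dvd_ne_zero h4 hne
      have h7 := hc 0
      have h8 := abs_le.mp h7
      omega
    rw [h5] at hs
    simp only [Int.cast_zero, add_zero] at hs
    have h6 : ∑ l ∈ range n, (c (l + 1) : ℚ) * q ^ l = 0 := by
      rcases mul_eq_zero.mp hs with h | h
      · exact absurd h hq0
      · exact h
    have h7 := ih (fun l => c (l + 1)) (fun l => hc _) h6
    intro l hl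
    cases l with
    | zero => exact h5
    | succ l => exact h7 l (by omega)

/-- sums of different sets of powers are different -/
theorem sum_pow_inj (q : ℚ) (hq : 2 ≤ q.num.natAbs) (n : ℕ) :
    Set.InjOn (fun u : Finset ℕ => ∑ l ∈ u, q ^ l) ((range n).powerset : Set (Finset ℕ)) := by
  intro u hu v hv he
  simp only [Finset.coe_powerset, Set.mem_preimage, Set.mem_powerset_iff, Finset.coe_subset] at hu hv
  simp only at he
  have key := digits_inj q hq n (fun l => (if l ∈ u then 1 else 0) - (if l ∈ v then 1 else 0)) (by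
    intro l
    by_cases h1 : l ∈ u <;> by_cases h2 : l ∈ v <;> simp [h1, h2]) (by
    have e : ∀ w : Finset ℕ, w ⊆ range n → ∑ l ∈ w, q ^ l = ∑ l ∈ range n, (if l ∈ w then q ^ l else 0) := by
      intro w hw
      rw [← Finset.sum_filter]
      apply Finset.sum_congr _ fun _ _ => rfl
      ext l
      simp only [Finset.mem_filter]
      exact ⟨fun h => ⟨hw h, h⟩, fun h => h.2⟩
    have : ∑ l ∈ range n, (((if l ∈ u then 1 else 0) - (if l ∈ v then 1 else 0) : ℤ) : ℚ) * q ^ l =
        ∑ l ∈ range n, (if l ∈ u then q ^ l else 0) - ∑ l ∈ range n, (if l ∈ v then q ^ l else 0) := by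
      rw [← Finset.sum_sub_distrib]
      apply Finset.sum_congr rfl
      intro l _
      by_cases h1 : l ∈ u <;> by_cases h2 : l ∈ v <;> simp [h1, h2]
    rw [this, ← e u hu, ← e v hv, he, sub_self])
  ext l
  by_cases hl : l < n
  · have h := key l hl
    by_cases h1 : l ∈ u <;> by_cases h2 : l ∈ v <;> simp_all
  · constructor
    · intro h
      exact absurd (Finset.mem_range.mp (hu h)) hl
    · intro h
      exact absurd (Finset.mem_range.mp (hv h)) hl

/-- the number of values of the digit reversal -/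
theorem card_reversal_le (q : ℚ) (hq0 : q ≠ 0) (n : ℕ) (i : ℤ) :
    ((range n).powerset.image fun u : Finset ℕ => ∑ l ∈ u, (q ^ ((l : ℤ) + i) - q ^ ((n : ℤ) - 1 - l))).card ≤
      3 ^ (n / 2) * 2 ^ i.natAbs := by
  classical
  set M : Finset ℕ := (range n).filter fun l => 0 ≤ (n : ℤ) - 1 - i - l ∧ (n : ℤ) - 1 - i - l < n with hM
  set τ : ℕ → ℕ := fun l => ((n : ℤ) - 1 - i - l).toNat with hτ
  set H : Finset ℕ := M.filter fun l => (l : ℤ) < (n : ℤ) - 1 - i - l with hH
  set R : Finset ℕ := (range n) \ M with hR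
  have hmM : ∀ l, l ∈ M ↔ l < n ∧ 0 ≤ (n : ℤ) - 1 - i - l ∧ (n : ℤ) - 1 - i - l < n := by
    intro l
    simp [hM]
  have hmH : ∀ l, l ∈ H ↔ l < n ∧ 0 ≤ (n : ℤ) - 1 - i - l ∧ (n : ℤ) - 1 - i - l < n ∧
      (l : ℤ) < (n : ℤ) - 1 - i - l := by
    intro l
    rw [hH, Finset.mem_filter, hmM]
    tauto
  have hcast : ∀ l ∈ M, ((τ l : ℕ) : ℤ) = (n : ℤ) - 1 - i - l := by
    intro l hl
    rw [hmM] at hl
    simp only [hτ]
    exact Int.toNat_of_nonneg hl.2.1
  have hHM : H ⊆ M := Finset.filter_subset _ _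
  have hMU : M ⊆ range n := Finset.filter_subset _ _
  have hτM : ∀ l ∈ M, τ l ∈ M := by
    intro l hl
    have h1 := hcast l hl
    rw [hmM] at hl ⊢
    omega
  have hinj : Set.InjOn τ (H : Set ℕ) := by
    intro x hx y hy hxy
    have h1 := hcast x (hHM hx)
    have h2 := hcast y (hHM hy)
    rw [hxy] at h1
    omega
  have hd1 : Disjoint H (H.image τ) := by
    rw [Finset.disjoint_left]
    intro x hx hx2
    rw [Finset.mem_image] at hx2
    obtain ⟨y, hy, hyx⟩ := hx2
    have h1 := hcast y (hHM hy)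
    rw [hyx] at h1
    rw [hmH] at hx hy
    omega
  have hτU : H ∪ H.image τ ⊆ M := by
    intro x hx
    rw [Finset.mem_union, Finset.mem_image] at hx
    rcases hx with hx | ⟨y, hy, rfl⟩
    · exact hHM hx
    · exact hτM y (hHM hy)
  have hd2 : Disjoint (H ∪ H.image τ) R := by
    rw [Finset.disjoint_left]
    intro x hx hx2
    rw [hR, Finset.mem_sdiff] at hx2
    exact hx2.2 (hτU hx)
  have hmain := card_sums_le (range n) H R (fun l => q ^ ((l : ℤ) + i) - q ^ ((n : ℤ) - 1 - l)) τ
    (hHM.trans hMU) (fun h hh => hMU (hτM h (hHM hh))) (by rw [hR]; exact Finset.sdiff_subset) hinj hd1 hd2 (by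
      intro h hh
      have h1 := hcast h (hHM hh)
      rw [h1]
      have e1 : (n : ℤ) - 1 - i - h + i = n - 1 - h := by ring
      have e2 : (n : ℤ) - 1 - (n - 1 - i - h) = h + i := by ring
      rw [e1, e2]
      ring) (by
      intro l hl hl2
      simp only [Finset.mem_union, not_or] at hl2
      obtain ⟨⟨a1, a2⟩, a3⟩ := hl2
      have hlM : l ∈ M := by
        by_contra h
        exact a3 (by rw [hR, Finset.mem_sdiff]; exact ⟨hl, h⟩)
      have h1 := hcast l hlM
      have h2 : ¬ ((l : ℤ) < (n : ℤ) - 1 - i - l) := by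
        intro h
        exact a1 (by rw [hH, Finset.mem_filter]; exact ⟨hlM, h⟩)
      have h3 : ¬ ((n : ℤ) - 1 - i - l < l) := by
        intro h
        apply a2
        rw [Finset.mem_image]
        refine ⟨τ l, ?_, ?_⟩
        · rw [hmH]
          rw [hmM] at hlM
          omega
        · have h4 := hcast (τ l) (hτM l hlM)
          omega
      have h5 : (n : ℤ) - 1 - i - l = l := by omega
      have h6 : (n : ℤ) - 1 - l = l + i := by linarith
      rw [h6, sub_self])
  refine hmain.trans ?_
  have hHc : H.card ≤ n / 2 := by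
    have h1 : (H ∪ H.image τ).card ≤ n := by
      refine (Finset.card_le_card (hτU.trans hMU)).trans ?_
      simp
    rw [Finset.card_union_of_disjoint hd1, Finset.card_image_of_injOn hinj] at h1
    omega
  have hRc : R.card ≤ i.natAbs := by
    rcases le_or_gt 0 i with hi | hi
    · have : R ⊆ Finset.Ico (n - i.natAbs) n := by
        intro l hl
        rw [hR, Finset.mem_sdiff, hmM, Finset.mem_range] at hl
        rw [Finset.mem_Ico]
        omega
      refine (Finset.card_le_card this).trans ?_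
      rw [Nat.card_Ico]
      omega
    · have : R ⊆ Finset.range i.natAbs := by
        intro l hl
        rw [hR, Finset.mem_sdiff, hmM, Finset.mem_range] at hl
        rw [Finset.mem_range]
        omega
      refine (Finset.card_le_card this).trans ?_
      simp
  exact Nat.mul_le_mul (Nat.pow_le_pow_right (by norm_num) hHc) (Nat.pow_le_pow_right (by norm_num) hRc)

/-- powers of a number with numerator different from `0`, `1`, `-1` -/
theorem gad_powers (q : ℚ) (hq : 2 ≤ q.num.natAbs) (I : ℕ) :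
    Gad {w | ∃ i : ℤ, i.natAbs ≤ I ∧ w = q ^ i} (140 * I) (112 * I) := by
  classical
  have hq0 : q ≠ 0 := by
    rintro rfl
    simp at hq
  refine ⟨(range (140 * I)).powerset.image fun u : Finset ℕ =>
    (∑ l ∈ u, q ^ l, -∑ l ∈ u, q ^ (((140 * I : ℕ) : ℤ) - 1 - l)), ?_, ?_, ?_⟩
  · intro x hx y hy he
    simp only [Finset.coe_image, Set.mem_image] at hx hy
    obtain ⟨u, hu, rfl⟩ := hx
    obtain ⟨v, hv, rfl⟩ := hy
    have : u = v := sum_pow_inj q hq _ hu hv he
    rw [this]
  · rw [Finset.card_image_of_injOn, Finset.card_powerset, Finset.card_range]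
    intro u hu v hv he
    exact sum_pow_inj q hq _ hu hv (Prod.mk.inj he).1
  · rintro w ⟨i, hi, rfl⟩
    rw [Finset.image_image]
    have : ((fun p : ℚ × ℚ => p.2 + q ^ i * p.1) ∘ fun u : Finset ℕ =>
        (∑ l ∈ u, q ^ l, -∑ l ∈ u, q ^ (((140 * I : ℕ) : ℤ) - 1 - l))) =
        fun u : Finset ℕ => ∑ l ∈ u, (q ^ ((l : ℤ) + i) - q ^ (((140 * I : ℕ) : ℤ) - 1 - l)) := by
      funext u
      simp only [Function.comp]
      rw [Finset.sum_sub_distrib, Finset.mul_sum]
      have : ∀ l ∈ u, q ^ i * q ^ l = q ^ ((l : ℤ) + i) := by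
        intro l _
        rw [zpow_add₀ hq0, zpow_natCast]
        ring
      rw [Finset.sum_congr rfl this]
      ring
    rw [this]
    refine (card_reversal_le q hq0 _ i).trans ?_
    have e1 : 140 * I / 2 = 70 * I := by omega
    rw [e1]
    calc 3 ^ (70 * I) * 2 ^ i.natAbs ≤ 3 ^ (70 * I) * 2 ^ I :=
          Nat.mul_le_mul_left _ (Nat.pow_le_pow_right (by norm_num) hi)
      _ = (3 ^ 70 * 2) ^ I := by rw [pow_mul, ← mul_pow]
      _ ≤ (2 ^ 112) ^ I := Nat.pow_le_pow_left (by norm_num) _
      _ = 2 ^ (112 * I) := by rw [← pow_mul]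

theorem cost_powers (q : ℚ) (hq : 2 ≤ q.num.natAbs) (F : Finset ℚ) (hF : ∀ w ∈ F, ∃ i : ℤ, w = q ^ i) :
    Cost (F : Set ℚ) 5 := by
  classical
  choose! i hi using hF
  set I : ℕ := (F.sup fun w => (i w).natAbs) + 1 with hI
  refine ⟨140 * I, 28 * I, by omega, by omega, ?_, ?_⟩
  · have : 140 * I - 28 * I = 112 * I := by omega
    rw [this]
    refine (gad_powers q hq I).mono ?_ le_rfl
    intro w hw
    refine ⟨i w, ?_, hi w hw⟩
    have := Finset.le_sup (f := fun w => (i w).natAbs) (Finset.mem_coe.mp hw)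
    omega
  · push_cast
    linarith

/-- A finite set of numbers of the form `a + c q ^ i` has cost at most five. -/
theorem cost_progression (a c q : ℚ) (F : Finset ℚ) (hF : ∀ w ∈ F, ∃ i : ℤ, w = a + c * q ^ i) :
    Cost (F : Set ℚ) 5 := by
  classical
  have red : ∀ q : ℚ, 2 ≤ q.num.natAbs → (∀ w ∈ F, ∃ i : ℤ, w = a + c * q ^ i) → Cost (F : Set ℚ) 5 := by
    intro q hq hF
    choose! i hi using hF
    have h1 := cost_powers q hq (F.image fun w => q ^ i w) (by
      intro w hw
      rw [Finset.mem_image] at hw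
      obtain ⟨v, _, rfl⟩ := hw
      exact ⟨i v, rfl⟩)
    refine (h1.affine c a).mono ?_ le_rfl
    intro w hw
    refine ⟨q ^ i w, ?_, (hi w hw).symm⟩
    rw [Finset.mem_coe]
    exact Finset.mem_image_of_mem _ hw
  by_cases h1 : 2 ≤ q.num.natAbs
  · exact red q h1 hF
  by_cases h2 : 2 ≤ q⁻¹.num.natAbs
  · refine red q⁻¹ h2 fun w hw => ?_
    obtain ⟨i, hi⟩ := hF w hw
    exact ⟨-i, by rw [hi, inv_zpow', neg_neg]⟩
  -- `q` is `0`, `1` or `-1`
  have h3 : q = 0 ∨ q = 1 ∨ q = -1 := by
    by_cases hq0 : q = 0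
    · exact Or.inl hq0
    right
    have h4 : q.num ≠ 0 := Rat.num_ne_zero.mpr hq0
    have h5 : q.den = 1 := by
      have h6 : q⁻¹.num.natAbs = q.den := by
        have : q⁻¹.num = q.num.sign * q.den := Rat.num_inv q
        rw [this, Int.natAbs_mul, Int.natAbs_sign_of_ne_zero h4]
        simp
      have := q.den_pos
      omega
    have h7 : q = q.num := (Rat.coe_int_num_of_den_eq_one h5).symm
    have h8 : q.num = 1 ∨ q.num = -1 := by omega
    rcases h8 with h8 | h8
    · left
      rw [h7, h8]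
      norm_num
    · right
      rw [h7, h8]
      norm_num
  have h4 : ∀ i : ℤ, q ^ i = 0 ∨ q ^ i = 1 ∨ q ^ i = -1 := by
    intro i
    rcases h3 with rfl | rfl | rfl
    · by_cases hi : i = 0
      · rw [hi]
        simp
      · left
        exact zero_zpow i hi
    · right; left
      exact one_zpow i
    · right
      rcases Int.even_or_odd i with h | h
      · left
        exact h.neg_one_zpow
      · right
        exact h.neg_one_zpow
  refine (((Cost.point a).add_finset {a + c, a - c})).mono ?_ ?_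
  · intro w hw
    obtain ⟨i, hi⟩ := hF w hw
    rcases h4 i with h | h | h
    · rw [h] at hi
      simp [hi]
    · rw [h] at hi
      simp [hi]
    · rw [h] at hi
      right
      simp only [Finset.coe_insert, Finset.coe_singleton, Set.mem_insert_iff, Set.mem_singleton_iff]
      right
      rw [hi]
      ring
  · have : (({a + c, a - c} : Finset ℚ).card : ℚ) ≤ 2 := by
      exact_mod_cast Finset.card_le_two
    linarith

end Pool.Agent.V7H31.GS
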