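import Pool.Agent.V7H31.GS.Gad

/-! The inverses of the rational numbers of height at most `H` have cost `O(log log H)` (parabola modulo a product of small primes,
Green-Ruzsa). -/

set_option autoImplicit false

namespace Pool.Agent.V7H31.GS

open Finset

/-- the number of values of `a x ^ 2 + b x` modulo an odd prime -/
theorem card_residues (p : ℕ) (a b : ℤ) (hp : p.Prime) (hp2 : p ≠ 2) (ht : ¬ (p : ℤ) ∣ a) :
    ((range p).image fun x : ℕ => (a * (x : ℤ) ^ 2 + b * x) % (p : ℤ)).card ≤ p / 2 + 1 := by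
  classical
  haveI : Fact p.Prime := ⟨hp⟩
  have hsub : ((range p).image fun x : ℕ => (a * (x : ℤ) ^ 2 + b * x) % (p : ℤ)) ⊆
      (range (p / 2 + 1)).image fun m : ℕ => (((((m : ZMod p) ^ 2 - (b : ZMod p) ^ 2) / (4 * a)).val : ℕ) : ℤ) := by
    intro z hz
    rw [Finset.mem_image] at hz
    obtain ⟨x, _, rfl⟩ := hz
    have ht0 : (a : ZMod p) ≠ 0 := by
      intro h
      exact ht ((ZMod.intCast_zmod_eq_zero_iff_dvd a p).mp h)
    have h20 : (2 : ZMod p) ≠ 0 := by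
      intro h
      have h1 : ((2 : ℕ) : ZMod p) = 0 := by exact_mod_cast h
      have h2 := (ZMod.natCast_eq_zero_iff 2 p).mp h1
      have h3 := (Nat.prime_dvd_prime_iff_eq hp Nat.prime_two).mp h2
      exact hp2 h3
    have h40 : (4 * a : ZMod p) ≠ 0 := by
      have : (4 : ZMod p) = 2 * 2 := by norm_num
      rw [this]
      exact mul_ne_zero (mul_ne_zero h20 h20) ht0
    set y : ZMod p := 2 * a * x + b with hy
    rw [Finset.mem_image]
    refine ⟨y.valMinAbs.natAbs, ?_, ?_⟩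
    · rw [Finset.mem_range]
      have := ZMod.natAbs_valMinAbs_le y
      omega
    · have h1 : ((y.valMinAbs.natAbs : ℕ) : ZMod p) ^ 2 = y ^ 2 := by
        have h2 : (((y.valMinAbs.natAbs : ℕ) : ℤ) : ZMod p) ^ 2 = ((y.valMinAbs : ℤ) : ZMod p) ^ 2 := by
          rw [← Int.cast_pow, ← Int.cast_pow, Int.natAbs_sq]
        rw [ZMod.coe_valMinAbs] at h2
        exact_mod_cast h2
      rw [h1]
      have h3 : (y ^ 2 - (b : ZMod p) ^ 2) / (4 * a) = ((a * (x : ℤ) ^ 2 + b * x : ℤ) : ZMod p) := by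
        rw [div_eq_iff h40, hy]
        push_cast
        ring
      rw [h3, ZMod.val_intCast]
  refine (Finset.card_le_card hsub).trans (Finset.card_image_le.trans ?_)
  simp

/-- the number of values of `a (D ^ 2 mod Q) + b D` -/
theorem card_parabola (P : Finset ℕ) (hP : ∀ p ∈ P, p.Prime) (H : ℕ) (a b : ℤ) (ha : |a| ≤ H) (hb0 : 0 ≤ b)
    (hb : b ≤ H) :
    ((range (∏ p ∈ P, p)).image fun D : ℕ => a * ((D ^ 2 % ∏ p ∈ P, p : ℕ) : ℤ) + b * D).card ≤
      (2 * H + 1) * ∏ p ∈ P, ((range p).image fun x : ℕ => (a * (x : ℤ) ^ 2 + b * x) % (p : ℤ)).card := by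
  classical
  set Q := ∏ p ∈ P, p with hQ
  have hQ0 : 0 < Q := Finset.prod_pos fun p hp => (hP p hp).pos
  have hQ0' : (0 : ℤ) < (Q : ℤ) := by exact_mod_cast hQ0
  obtain ⟨ha1, ha2⟩ := abs_le.mp ha
  -- the range of the quotient
  have hquot : ∃ V : Finset ℤ, V.card ≤ 2 * H + 1 ∧ ∀ D < Q, (a * ((D ^ 2 % Q : ℕ) : ℤ) + b * D) / (Q : ℤ) ∈ V := by
    rcases le_or_gt 0 a with h0 | h0
    · refine ⟨Finset.Icc 0 (2 * H), by rw [Int.card_Icc]; omega, fun D hD => ?_⟩
      have h1 : ((D ^ 2 % Q : ℕ) : ℤ) < Q := by exact_mod_cast Nat.mod_lt _ hQ0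
      have h2 : (0 : ℤ) ≤ ((D ^ 2 % Q : ℕ) : ℤ) := Int.natCast_nonneg _
      have h3 : (D : ℤ) < Q := by exact_mod_cast hD
      have h4 : (0 : ℤ) ≤ D := Int.natCast_nonneg _
      rw [Finset.mem_Icc]
      constructor
      · apply Int.ediv_nonneg _ hQ0'.le
        positivity
      · have h5 : a * ((D ^ 2 % Q : ℕ) : ℤ) ≤ H * Q := by nlinarith
        have h6 : b * D ≤ H * Q := by nlinarith
        have h7 : a * ((D ^ 2 % Q : ℕ) : ℤ) + b * D ≤ (2 * H) * Q := by linarith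
        exact Int.ediv_le_of_le_mul hQ0' h7
    · refine ⟨Finset.Icc (-(H : ℤ)) H, by rw [Int.card_Icc]; omega, fun D hD => ?_⟩
      have h1 : ((D ^ 2 % Q : ℕ) : ℤ) < Q := by exact_mod_cast Nat.mod_lt _ hQ0
      have h2 : (0 : ℤ) ≤ ((D ^ 2 % Q : ℕ) : ℤ) := Int.natCast_nonneg _
      have h3 : (D : ℤ) < Q := by exact_mod_cast hD
      have h4 : (0 : ℤ) ≤ D := Int.natCast_nonneg _
      rw [Finset.mem_Icc]
      constructor
      · rw [Int.le_ediv_iff_mul_le hQ0']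
        have h5 : (-a) * ((D ^ 2 % Q : ℕ) : ℤ) ≤ H * Q := by nlinarith
        have h6 : 0 ≤ b * D := by positivity
        linarith
      · have h5 : a * ((D ^ 2 % Q : ℕ) : ℤ) ≤ 0 := by nlinarith
        have h6 : b * D ≤ H * Q := by nlinarith
        exact Int.ediv_le_of_le_mul hQ0' (by linarith)
  obtain ⟨V, hV1, hV2⟩ := hquot
  have hWc : (V ×ˢ Fintype.piFinset fun p : {x // x ∈ P} =>
      (range (p : ℕ)).image fun x : ℕ => (a * (x : ℤ) ^ 2 + b * x) % ((p : ℕ) : ℤ)).card ≤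
      (2 * H + 1) * ∏ p ∈ P, ((range p).image fun x : ℕ => (a * (x : ℤ) ^ 2 + b * x) % (p : ℤ)).card := by
    rw [Finset.card_product, Fintype.card_piFinset]
    refine Nat.mul_le_mul hV1 (le_of_eq ?_)
    exact Finset.prod_coe_sort P fun p => ((range p).image fun x : ℕ => (a * (x : ℤ) ^ 2 + b * x) % (p : ℤ)).card
  refine le_trans ?_ hWc
  refine Finset.card_le_card_of_injOn (fun v : ℤ => (v / Q, fun p : {x // x ∈ P} => v % ((p : ℕ) : ℤ))) ?_ ?_
  · intro v hv
    rw [Finset.mem_coe, Finset.mem_image] at hv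
    obtain ⟨D, hD, rfl⟩ := hv
    rw [Finset.mem_range] at hD
    rw [Finset.mem_coe, Finset.mem_product]
    refine ⟨hV2 D hD, ?_⟩
    rw [Fintype.mem_piFinset]
    intro p
    rw [Finset.mem_image]
    have hp := hP p p.2
    refine ⟨D % (p : ℕ), Finset.mem_range.mpr (Nat.mod_lt _ hp.pos), ?_⟩
    have hpQ : (p : ℕ) ∣ Q := Finset.dvd_prod_of_mem _ p.2
    have h2 : ((D ^ 2 % Q : ℕ) : ℤ) ≡ ((D ^ 2 : ℕ) : ℤ) [ZMOD ((p : ℕ) : ℤ)] := by
      rw [Int.natCast_modEq_iff]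
      exact Nat.mod_mod_of_dvd _ hpQ
    have h3 : ((D % (p : ℕ) : ℕ) : ℤ) ≡ (D : ℤ) [ZMOD ((p : ℕ) : ℤ)] := by
      rw [Int.natCast_modEq_iff]
      exact Nat.mod_modEq _ _
    have h4 : a * (((D % (p : ℕ) : ℕ) : ℤ)) ^ 2 + b * ((D % (p : ℕ) : ℕ) : ℤ) ≡
        a * (D : ℤ) ^ 2 + b * D [ZMOD ((p : ℕ) : ℤ)] :=
      ((h3.pow 2).mul_left a).add (h3.mul_left b)
    have h5 : a * ((D ^ 2 % Q : ℕ) : ℤ) + b * D ≡ a * (D : ℤ) ^ 2 + b * D [ZMOD ((p : ℕ) : ℤ)] := by
      have := (h2.mul_left a).add_right (b * (D : ℤ))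
      push_cast at this ⊢
      exact this
    exact h4.trans h5.symm
  · intro v _ v' _ he
    have he1 : v / Q = v' / Q := (Prod.mk.inj he).1
    have he2 := (Prod.mk.inj he).2
    have h1 : (Q : ℤ) ∣ v' - v := by
      rw [Int.natCast_dvd, hQ]
      refine Finset.prod_primes_dvd _ (fun p hp => (hP p hp).prime) fun p hp => ?_
      rw [← Int.natCast_dvd]
      have h2 : v % (p : ℤ) = v' % (p : ℤ) := congrFun he2 ⟨p, hp⟩
      exact Int.ModEq.dvd h2
    have h2 : v % Q = v' % Q := (Int.modEq_iff_dvd.mpr h1 : v ≡ v' [ZMOD (Q : ℤ)])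
    rw [← Int.mul_ediv_add_emod v Q, ← Int.mul_ediv_add_emod v' Q, he1, h2]

/-- many small primes -/
theorem exists_primes (u m : ℕ) (hu : 2 ≤ u) (hm : m + 3 ≤ 2 ^ u) :
    ∃ P : Finset ℕ, P.card = m ∧ ∀ p ∈ P, p.Prime ∧ p ≠ 2 ∧ p ≤ 4 ^ u := by
  classical
  have h1 := (Chebyshev.psi_ge (4 ^ u)).trans (Chebyshev.psi_le_primeCounting_mul_log (4 ^ u))
  have hl : 0 < Real.log 2 := Real.log_pos (by norm_num)
  have e1 : Real.log ((4 ^ u : ℕ) : ℝ) = 2 * u * Real.log 2 := by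
    push_cast
    rw [Real.log_pow, show (4 : ℝ) = 2 ^ 2 by norm_num, Real.log_pow]
    push_cast
    ring
  have e2 : Real.log (((4 ^ u : ℕ) : ℝ) + 1) ≤ (2 * u + 1) * Real.log 2 := by
    have h2 : (((4 ^ u : ℕ) : ℝ) + 1) ≤ 2 ^ (2 * u + 1) := by
      have : 4 ^ u + 1 ≤ 2 ^ (2 * u + 1) := by
        have h3 : 2 ^ (2 * u + 1) = 2 * 4 ^ u := by
          rw [pow_succ, pow_mul]
          norm_num
          ring
        have h4 : 1 ≤ 4 ^ u := Nat.one_le_pow _ _ (by norm_num)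
        omega
      exact_mod_cast this
    have h3 := Real.log_le_log (by positivity) h2
    rw [Real.log_pow] at h3
    push_cast at h3 ⊢
    exact h3
  rw [e1] at h1
  have h2 : ((4 ^ u : ℕ) : ℝ) * Real.log 2 - (2 * u + 1) * Real.log 2 ≤
      (Nat.primeCounting (4 ^ u) : ℝ) * (2 * u * Real.log 2) := by linarith
  have h3 : ((4 ^ u : ℕ) : ℝ) - (2 * u + 1) ≤ (Nat.primeCounting (4 ^ u) : ℝ) * (2 * u) := by
    have : (((4 ^ u : ℕ) : ℝ) - (2 * u + 1)) * Real.log 2 ≤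
        ((Nat.primeCounting (4 ^ u) : ℝ) * (2 * u)) * Real.log 2 := by linarith
    exact le_of_mul_le_mul_right this hl
  have h4 : 4 ^ u ≤ Nat.primeCounting (4 ^ u) * (2 * u) + (2 * u + 1) := by
    have : ((4 ^ u : ℕ) : ℝ) ≤ ((Nat.primeCounting (4 ^ u) * (2 * u) + (2 * u + 1) : ℕ) : ℝ) := by
      push_cast at h3 ⊢
      linarith
    exact_mod_cast this
  have h5 : 2 * u ≤ 2 ^ u := by
    have : ∀ n : ℕ, 2 ≤ n → 2 * n ≤ 2 ^ n := by
      intro n hn
      induction n, hn using Nat.le_induction with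
      | base => norm_num
      | succ n hn ih =>
        rw [pow_succ]
        omega
    exact this u hu
  have h6 : m + 1 ≤ Nat.primeCounting (4 ^ u) := by
    by_contra hcon
    have h7 : Nat.primeCounting (4 ^ u) ≤ m := by omega
    have h8 : Nat.primeCounting (4 ^ u) * (2 * u) ≤ m * 2 ^ u := Nat.mul_le_mul h7 h5
    have h9 : 4 ^ u = 2 ^ u * 2 ^ u := by
      rw [← mul_pow]
      norm_num
    have h10 : (m + 3) * 2 ^ u ≤ 2 ^ u * 2 ^ u := Nat.mul_le_mul_right _ hm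
    have h11 : 4 ≤ 2 ^ u := by
      calc 4 = 2 ^ 2 := by norm_num
        _ ≤ 2 ^ u := Nat.pow_le_pow_right (by norm_num) hu
    have h12 : (m + 3) * 2 ^ u = m * 2 ^ u + 3 * 2 ^ u := by ring
    omega
  have h7 : Nat.primeCounting (4 ^ u) = ((range (4 ^ u + 1)).filter Nat.Prime).card := by
    rw [Nat.primeCounting, Nat.primeCounting', Nat.count_eq_card_filter_range]
  have h8 : m ≤ (((range (4 ^ u + 1)).filter Nat.Prime).erase 2).card := by
    rw [h7] at h6
    have := Finset.pred_card_le_card_erase (s := (range (4 ^ u + 1)).filter Nat.Prime) (a := 2)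
    omega
  obtain ⟨P, h9, h10⟩ := Finset.exists_subset_card_eq h8
  refine ⟨P, h10, fun p hp => ?_⟩
  have h11 := h9 hp
  rw [Finset.mem_erase, Finset.mem_filter, Finset.mem_range] at h11
  exact ⟨h11.2.2, h11.1, by omega⟩

/-- The numbers `1 / v` for `v` of height at most `H` have cost at most `9 u`, where `2 ^ u` is about
`9 log H`. -/
theorem cost_height (H l u : ℕ) (hl : 1 ≤ l) (hH : 2 * H + 1 ≤ 2 ^ l) (hu : 9 * l + 3 ≤ 2 ^ u) :
    Cost {w | ∃ v : ℚ, v ≠ 0 ∧ |v.num| ≤ H ∧ v.den ≤ H ∧ w = 1 / v} (9 * u) := by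
  classical
  have hu2 : 2 ≤ u := by
    by_contra hcon
    have : u ≤ 1 := by omega
    have : 2 ^ u ≤ 2 ^ 1 := Nat.pow_le_pow_right (by norm_num) this
    omega
  obtain ⟨P, hPc, hP⟩ := exists_primes u (9 * l) hu2 hu
  set Q := ∏ p ∈ P, p with hQ
  have hQ0 : 0 < Q := Finset.prod_pos fun p hp => (hP p hp).1.pos
  have hQle : Q ≤ 2 ^ (18 * u * l) := by
    have h1 : Q ≤ (4 ^ u) ^ P.card := Finset.prod_le_pow_card _ _ _ fun p hp => (hP p hp).2.2
    rw [hPc] at h1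
    refine h1.trans (le_of_eq ?_)
    rw [show (4 : ℕ) = 2 ^ 2 by norm_num, ← pow_mul, ← pow_mul]
    congr 1
    ring
  have hQge : 2 ^ (9 * l) ≤ Q := by
    have : (2 : ℕ) ^ P.card ≤ Q := Finset.pow_card_le_prod _ _ _ fun p hp => (hP p hp).1.two_le
    rwa [hPc] at this
  set a := Nat.log 2 Q with ha
  have ha1 : 2 ^ a ≤ Q := Nat.pow_log_le_self 2 hQ0.ne'
  have ha2 : Q < 2 ^ (a + 1) := Nat.lt_pow_succ_log_self (by norm_num) _
  have ha3 : a ≤ 18 * u * l := by
    have h1 : 2 ^ a ≤ 2 ^ (18 * u * l) := ha1.trans hQle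
    exact (Nat.pow_le_pow_iff_right (by norm_num)).mp h1
  have ha4 : 9 * l < a + 1 := by
    have h1 : 2 ^ (9 * l) < 2 ^ (a + 1) := lt_of_le_of_lt hQge ha2
    exact (Nat.pow_lt_pow_iff_right (by norm_num)).mp h1
  -- the number of values
  have hV : ∀ x y : ℤ, x ≠ 0 → |x| ≤ H → 0 ≤ y → y ≤ H →
      ((range Q).image fun D : ℕ => x * ((D ^ 2 % Q : ℕ) : ℤ) + y * D).card ≤ 2 ^ (a + 1 - 3 * l) := by
    intro x y hx0 hx hy0 hy
    have h1 := card_parabola P (fun p hp => (hP p hp).1) H x y hx hy0 hy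
    rw [← hQ] at h1
    set V := ((range Q).image fun D : ℕ => x * ((D ^ 2 % Q : ℕ) : ℤ) + y * D).card with hVdef
    set c : ℕ → ℕ := fun p => ((range p).image fun z : ℕ => (x * (z : ℤ) ^ 2 + y * z) % (p : ℤ)).card with hc
    set P1 := P.filter fun p : ℕ => ¬ (p : ℤ) ∣ x with hP1
    set P2 := P.filter fun p : ℕ => (p : ℤ) ∣ x with hP2
    have hsplit : ∀ f : ℕ → ℕ, ∏ p ∈ P, f p = (∏ p ∈ P2, f p) * ∏ p ∈ P1, f p := fun f =>
      (Finset.prod_filter_mul_prod_filter_not P (fun p : ℕ => (p : ℤ) ∣ x) f).symm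
    have hcard : P2.card + P1.card = 9 * l := by
      rw [← hPc, hP2, hP1]
      exact Finset.card_filter_add_card_filter_not (fun p : ℕ => (p : ℤ) ∣ x)
    have hP2c : P2.card ≤ l := by
      have h2 : ∏ p ∈ P2, p ∣ x.natAbs := by
        apply Finset.prod_primes_dvd
        · intro p hp
          exact (hP p (Finset.mem_filter.mp hp).1).1.prime
        · intro p hp
          exact Int.natCast_dvd.mp (Finset.mem_filter.mp hp).2
      have h3 : 2 ^ P2.card ≤ ∏ p ∈ P2, p :=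
        Finset.pow_card_le_prod _ _ _ fun p hp => (hP p (Finset.mem_filter.mp hp).1).1.two_le
      have h4 : 2 ^ P2.card ≤ 2 ^ l := by
        have h5 := Nat.le_of_dvd (Int.natAbs_pos.mpr hx0) h2
        have h6 : (x.natAbs : ℤ) ≤ H := by rwa [Int.natCast_natAbs]
        omega
      exact (Nat.pow_le_pow_iff_right (by norm_num)).mp h4
    have hj : 8 * l ≤ P1.card := by omega
    have hc2 : ∏ p ∈ P2, c p ≤ ∏ p ∈ P2, p := Finset.prod_le_prod' fun p _ => by
      simp only [hc]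
      exact Finset.card_image_le.trans (by simp)
    have hc1 : 3 ^ P1.card * ∏ p ∈ P1, c p ≤ 2 ^ P1.card * ∏ p ∈ P1, p := by
      rw [← Finset.prod_const, ← Finset.prod_const, ← Finset.prod_mul_distrib, ← Finset.prod_mul_distrib]
      apply Finset.prod_le_prod'
      intro p hp
      have hp1 := Finset.mem_filter.mp hp
      have hp2 := hP p hp1.1
      have h2 := card_residues p x y hp2.1 hp2.2.1 hp1.2
      have h3 : p % 2 = 1 := by
        rcases hp2.1.eq_two_or_odd with h | h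
        · exact absurd h hp2.2.1
        · exact h
      have h4 : 3 ≤ p := by
        have := hp2.1.two_le
        have := hp2.2.1
        omega
      simp only [hc]
      have h5 : 3 * (p / 2 + 1) ≤ 2 * p := by omega
      exact (Nat.mul_le_mul_left _ h2).trans h5
    have hc3 : 3 ^ P1.card * ∏ p ∈ P, c p ≤ 2 ^ P1.card * Q := by
      rw [hsplit c, hQ, hsplit fun p => p]
      calc 3 ^ P1.card * ((∏ p ∈ P2, c p) * ∏ p ∈ P1, c p)
          = (∏ p ∈ P2, c p) * (3 ^ P1.card * ∏ p ∈ P1, c p) := by ring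
        _ ≤ (∏ p ∈ P2, p) * (2 ^ P1.card * ∏ p ∈ P1, p) := Nat.mul_le_mul hc2 hc1
        _ = 2 ^ P1.card * ((∏ p ∈ P2, p) * ∏ p ∈ P1, p) := by ring
    -- reduce to `8 l`
    have hc4 : 3 ^ (8 * l) * ∏ p ∈ P, c p ≤ 2 ^ (8 * l) * Q := by
      obtain ⟨r, hr⟩ : ∃ r, P1.card = 8 * l + r := ⟨P1.card - 8 * l, by omega⟩
      rw [hr, pow_add, pow_add] at hc3
      have h2 : 2 ^ r * (3 ^ (8 * l) * ∏ p ∈ P, c p) ≤ 2 ^ r * (2 ^ (8 * l) * Q) := by
        calc 2 ^ r * (3 ^ (8 * l) * ∏ p ∈ P, c p) ≤ 3 ^ r * (3 ^ (8 * l) * ∏ p ∈ P, c p) :=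
              Nat.mul_le_mul_right _ (Nat.pow_le_pow_left (by norm_num) _)
          _ = 3 ^ (8 * l) * 3 ^ r * ∏ p ∈ P, c p := by ring
          _ ≤ 2 ^ (8 * l) * 2 ^ r * Q := hc3
          _ = 2 ^ r * (2 ^ (8 * l) * Q) := by ring
      exact Nat.le_of_mul_le_mul_left h2 (by positivity)
    have h2 : 2 ^ (12 * l) * V ≤ 2 ^ (9 * l) * Q := by
      calc 2 ^ (12 * l) * V ≤ 3 ^ (8 * l) * V := by
            apply Nat.mul_le_mul_right
            rw [pow_mul, pow_mul]
            exact Nat.pow_le_pow_left (by norm_num) _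
        _ ≤ 3 ^ (8 * l) * ((2 * H + 1) * ∏ p ∈ P, c p) := Nat.mul_le_mul_left _ h1
        _ = (2 * H + 1) * (3 ^ (8 * l) * ∏ p ∈ P, c p) := by ring
        _ ≤ 2 ^ l * (2 ^ (8 * l) * Q) := Nat.mul_le_mul hH hc4
        _ = 2 ^ (9 * l) * Q := by
          rw [← mul_assoc, ← pow_add]
          congr 2
          ring
    have h3 : 2 ^ (12 * l) * V < 2 ^ (12 * l) * 2 ^ (a + 1 - 3 * l) := by
      calc 2 ^ (12 * l) * V ≤ 2 ^ (9 * l) * Q := h2
        _ < 2 ^ (9 * l) * 2 ^ (a + 1) := Nat.mul_lt_mul_of_pos_left ha2 (by positivity)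
        _ = 2 ^ (12 * l) * 2 ^ (a + 1 - 3 * l) := by
          rw [← pow_add, ← pow_add]
          congr 1
          omega
    exact (Nat.lt_of_mul_lt_mul_left h3).le
  refine ⟨a, 3 * l - 1, by omega, by omega, ?_, ?_⟩
  · have e : a - (3 * l - 1) = a + 1 - 3 * l := by omega
    rw [e]
    refine Gad.of_le ((range Q).image fun D : ℕ => ((D : ℚ), ((D ^ 2 % Q : ℕ) : ℚ))) ?_ ?_ ?_
    · intro x hx y hy he
      simp only [Finset.coe_image, Set.mem_image] at hx hy
      obtain ⟨D, _, rfl⟩ := hx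
      obtain ⟨D', _, rfl⟩ := hy
      simp only at he
      have : D = D' := by exact_mod_cast he
      rw [this]
    · rw [Finset.card_image_of_injOn, Finset.card_range]
      · exact ha1
      · intro D _ D' _ he
        have := (Prod.mk.inj he).1
        exact_mod_cast this
    · rintro w ⟨v, hv0, hv1, hv2, rfl⟩
      have hn0 : v.num ≠ 0 := Rat.num_ne_zero.mpr hv0
      refine le_trans ?_ (hV v.num v.den hn0 hv1 (Int.natCast_nonneg _) (by exact_mod_cast hv2))
      rw [Finset.image_image]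
      have hnq : (v.num : ℚ) ≠ 0 := by exact_mod_cast hn0
      have hdq : (v.den : ℚ) ≠ 0 := by exact_mod_cast v.den_nz
      have hv : (1 : ℚ) / v = v.den / v.num := by
        conv_lhs => rw [← Rat.num_div_den v]
        rw [one_div_div]
      have e2 : ((range Q).image ((fun p : ℚ × ℚ => p.2 + 1 / v * p.1) ∘
          fun D : ℕ => ((D : ℚ), ((D ^ 2 % Q : ℕ) : ℚ)))) =
          ((range Q).image fun D : ℕ => v.num * ((D ^ 2 % Q : ℕ) : ℤ) + v.den * D).image
            fun z : ℤ => (z : ℚ) / v.num := by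
        rw [Finset.image_image]
        apply Finset.image_congr
        intro D _
        simp only [Function.comp]
        rw [hv]
        generalize D ^ 2 % Q = m
        push_cast
        field_simp
      rw [e2]
      exact Finset.card_image_le
  · have h1 : a ≤ 9 * u * (3 * l - 1) := by
      refine ha3.trans ?_
      have h2 : 2 * l ≤ 3 * l - 1 := by omega
      calc 18 * u * l = 9 * u * (2 * l) := by ring
        _ ≤ 9 * u * (3 * l - 1) := Nat.mul_le_mul_left _ h2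
    have h2 : ((a : ℕ) : ℚ) ≤ ((9 * u * (3 * l - 1) : ℕ) : ℚ) := by exact_mod_cast h1
    push_cast at h2 ⊢
    exact h2

end Pool.Agent.V7H31.GS
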