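import Pool.Agent.V7H31.GS.ParQ
import Pool.Agent.V7H31.GS.Sub
import Pool.Agent.V7H10.AK

/-! Random slopes. -/

set_option autoImplicit false

namespace Pool.Agent.V7H31.GS

open Finset
open Pool.Agent.R470.AK (Good comb X bad0 base_of_not_mem)
open Pool.Agent.V7H10.AK (root_le bad_card X_congr)

/-- the gadget of a good sequence -/
theorem gad_of_good {m D e : ℕ} (hm : 1 ≤ m) (hD : 1 ≤ D) (t : ℚ) (ν : ℕ → ℚ) (ht : t ∉ bad0 (2 ^ e))
    (h : ∀ j < m, Good D (ν j) (comb (-t) (X D (2 ^ e) ν j) (X D (2 ^ e) ν j))) :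
    Gad {w | w = 0 ∨ ∃ u : ℚ, (u = t ∨ ∃ j < m, u = t + ν j) ∧ w = 1 / u}
      (2 * e * D ^ m) ((e + 1) * (D + 1) * D ^ (m - 1)) := by
  classical
  have hM1 : 0 < 2 ^ e := by positivity
  obtain ⟨A, hA1, hA2, hA3⟩ := Pool.Agent.V7H10.AK.assemble' (n := D) (m := 2 ^ e) hM1 t ν m
    (base_of_not_mem ν ht) h
  obtain ⟨G, i, c, v0, v1⟩ := exists_points A
  have hinf : (projInf A).card ≤ 2 ^ ((e + 1) * (D + 1) * D ^ (m - 1)) := root_le hD hm hA2
  have hpr : ∀ r : ℚ, (r + 1 = t ∨ ∃ j < m, r + 1 = t + ν j) →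
      (proj r A).card ≤ 2 ^ ((e + 1) * (D + 1) * D ^ (m - 1)) := fun r hr => root_le hD hm (hA3 r hr)
  refine ⟨G, i, ?_, ?_⟩
  · rw [c]
    have : (proj (-1) A).card = ((2 ^ e) ^ D ^ m) ^ 2 := hA1
    rw [this, ← pow_mul, ← pow_mul]
    congr 1
    ring
  · rintro w (rfl | ⟨u, hu, rfl⟩)
    · exact v0.trans hinf
    · by_cases h0 : u = 0
      · subst h0
        simp only [div_zero]
        exact v0.trans hinf
      · have h1 := v1 (u - 1) (fun h => h0 (by linarith))
        have e1 : u - 1 + 1 = u := by ring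
        rw [e1] at h1
        refine h1.trans (hpr (u - 1) ?_)
        rw [e1]
        exact hu

/-- counting by one coordinate -/
theorem card_coord_le {α : Type} [DecidableEq α] (Y : Finset α) (x₀ : α) (hx₀ : x₀ ∈ Y) {k B : ℕ}
    (P : (Fin k → α) → Prop) [DecidablePred P] (i : Fin k)
    (hB : ∀ s : Fin k → α, (Y.filter fun c => P (Function.update s i c)).card ≤ B) :
    ((Fintype.piFinset fun _ : Fin k => Y).filter P).card ≤ B * Y.card ^ (k - 1) := by
  classical
  set W := Fintype.piFinset fun _ : Fin k => Y with hW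
  have h1 := Finset.card_le_mul_card_image (f := fun s : Fin k → α => Function.update s i x₀) (W.filter P) B (by
    intro a _
    refine le_trans ?_ (hB a)
    refine Finset.card_le_card_of_injOn (fun s => s i) ?_ ?_
    · intro s hs
      rw [Finset.mem_coe, Finset.mem_filter, Finset.mem_filter, hW, Fintype.mem_piFinset] at hs
      rw [Finset.mem_coe, Finset.mem_filter]
      refine ⟨hs.1.1 i, ?_⟩
      have : Function.update a i (s i) = s := by
        rw [← hs.2]
        simp
      rw [this]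
      exact hs.1.2
    · intro s hs s' hs' he
      rw [Finset.mem_coe, Finset.mem_filter] at hs hs'
      have e1 : Function.update a i (s i) = s := by
        rw [← hs.2]
        simp
      have e2 : Function.update a i (s' i) = s' := by
        rw [← hs'.2]
        simp
      rw [← e1, ← e2]
      simp only at he
      rw [he])
  refine h1.trans (Nat.mul_le_mul_left _ ?_)
  have h2 : (W.filter P).image (fun s : Fin k → α => Function.update s i x₀) ⊆
      Fintype.piFinset fun j : Fin k => if j = i then {x₀} else Y := by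
    intro s hs
    rw [Finset.mem_image] at hs
    obtain ⟨s', hs', rfl⟩ := hs
    rw [Fintype.mem_piFinset]
    intro j
    have h3 := (Finset.mem_filter.mp hs').1
    rw [hW, Fintype.mem_piFinset] at h3
    by_cases hj : j = i
    · subst hj
      simp
    · simp only [hj, if_false, Function.update_of_ne hj]
      exact h3 j
  refine (Finset.card_le_card h2).trans ?_
  rw [Fintype.card_piFinset]
  have h3 : ∀ j : Fin k, (if j = i then ({x₀} : Finset α) else Y).card = if j = i then 1 else Y.card := by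
    intro j
    by_cases hj : j = i
    · simp [hj]
    · simp [hj]
  simp only [h3]
  rw [Finset.prod_ite, Finset.prod_const_one, one_mul, Finset.prod_const]
  apply Nat.pow_le_pow_right (Finset.card_pos.mpr ⟨x₀, hx₀⟩)
  have h4 : (univ.filter fun j : Fin k => ¬ j = i) = univ.erase i := by
    ext j
    simp
  rw [h4, Finset.card_erase_of_mem (mem_univ i), Finset.card_univ, Fintype.card_fin]

/-- the `i`-th entry, increased by one -/
def ent {k : ℕ} (s : Fin k → ℚ) (i : ℕ) : ℚ := if h : i < k then s ⟨i, h⟩ + 1 else 0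

theorem ent_update_self {k : ℕ} (s : Fin k → ℚ) (i : ℕ) (h : i < k) (c : ℚ) :
    ent (Function.update s ⟨i, h⟩ c) i = c + 1 := by
  unfold ent
  rw [dif_pos h, Function.update_self]

theorem ent_update_ne {k : ℕ} (s : Fin k → ℚ) (i j : ℕ) (h : i < k) (hij : j ≠ i) (c : ℚ) :
    ent (Function.update s ⟨i, h⟩ c) j = ent s j := by
  unfold ent
  by_cases hj : j < k
  · rw [dif_pos hj, dif_pos hj, Function.update_of_ne]
    intro he
    exact hij (congrArg Fin.val he)
  · rw [dif_neg hj, dif_neg hj]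

/-- the shifted entries of the block which begins with the index `b` -/
def nu {k : ℕ} (s : Fin k → ℚ) (b j : ℕ) : ℚ := ent s (b + (j + 1)) - ent s b

/-- the digit sums of the block -/
noncomputable def ZZ {k : ℕ} (D e b j : ℕ) (s : Fin k → ℚ) : Finset ℚ :=
  comb (-(ent s b)) (X D (2 ^ e) (nu s b) j) (X D (2 ^ e) (nu s b) j)

/-- the entry `j + 1` of the block is bad -/
def BadE {k : ℕ} (D e b j : ℕ) (s : Fin k → ℚ) : Prop := ¬ Good D (nu s b j) (ZZ D e b j s)

theorem ZZ_update {k : ℕ} (D e b j : ℕ) (hjk : b + (j + 1) < k) (s : Fin k → ℚ) (c : ℚ) :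
    ZZ D e b j (Function.update s ⟨b + (j + 1), hjk⟩ c) = ZZ D e b j s := by
  unfold ZZ
  have h0 : ent (Function.update s ⟨b + (j + 1), hjk⟩ c) b = ent s b :=
    ent_update_ne s _ _ hjk (by omega) c
  have h1 : X D (2 ^ e) (nu (Function.update s ⟨b + (j + 1), hjk⟩ c) b) j = X D (2 ^ e) (nu s b) j := by
    apply X_congr
    intro i hi
    unfold nu
    rw [ent_update_ne s _ _ hjk (by omega) c, ent_update_ne s _ _ hjk (by omega) c]
  rw [h0, h1]

theorem card_ZZ {k : ℕ} (D e b j : ℕ) (s : Fin k → ℚ) : (ZZ D e b j s).card ≤ ((2 ^ e) ^ D ^ j) ^ 2 := by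
  have hXc : (X D (2 ^ e) (nu s b) j).card ≤ (2 ^ e) ^ D ^ j := Pool.Agent.R470.AK.card_X_le _ _ _ _
  unfold ZZ comb
  refine (card_image₂_le _ _ _).trans ?_
  rw [sq]
  exact Nat.mul_le_mul hXc hXc

open Classical in
/-- few tuples have a bad entry -/
theorem card_bad_entry (Y : Finset ℚ) (hY : Y.Nonempty) {k D e : ℕ} (b j : ℕ) (hjk : b + (j + 1) < k) :
    ((Fintype.piFinset fun _ : Fin k => Y).filter (BadE D e b j)).card ≤
      (D * (2 ^ e) ^ (4 * D ^ (j + 1))) * Y.card ^ (k - 1) := by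
  obtain ⟨x₀, hx₀⟩ := hY
  refine card_coord_le (P := BadE D e b j) Y x₀ hx₀ ⟨b + (j + 1), hjk⟩ fun s => ?_
  set t : ℚ := ent s b with ht
  have hfil : (Y.filter fun c => BadE D e b j (Function.update s ⟨b + (j + 1), hjk⟩ c)) =
      Y.filter fun c : ℚ => ¬ Good D ((c + 1) - t) (ZZ D e b j s) := by
    apply Finset.filter_congr
    intro c _
    unfold BadE
    rw [ZZ_update]
    unfold nu
    rw [ent_update_self s _ hjk c, ent_update_ne s _ _ hjk (by omega) c]
  rw [hfil]
  have h1 : (Y.filter fun c : ℚ => ¬ Good D ((c + 1) - t) (ZZ D e b j s)).card ≤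
      ((Y.image fun c : ℚ => (c + 1) - t).filter fun ν => ¬ Good D ν (ZZ D e b j s)).card := by
    refine Finset.card_le_card_of_injOn (fun c : ℚ => (c + 1) - t) ?_ ?_
    · intro c hc
      rw [Finset.mem_coe, Finset.mem_filter] at hc
      rw [Finset.mem_coe, Finset.mem_filter]
      exact ⟨Finset.mem_image_of_mem (fun c : ℚ => (c + 1) - t) hc.1, hc.2⟩
    · intro c _ c' _ he
      simp only [sub_left_inj, add_left_inj] at he
      exact he
  refine h1.trans ((bad_card D (ZZ D e b j s) _).trans ?_)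
  apply Nat.mul_le_mul_left
  have hZc := card_ZZ D e b j s
  refine (Nat.pow_le_pow_left (Nat.pow_le_pow_left hZc D) 2).trans (le_of_eq ?_)
  rw [← pow_mul, ← pow_mul, ← pow_mul, ← pow_mul, ← pow_mul]
  congr 1
  ring

open Classical in
theorem card_bad_first (Y : Finset ℚ) (hY : Y.Nonempty) {k e : ℕ} (b : ℕ) (hb : b < k) :
    ((Fintype.piFinset fun _ : Fin k => Y).filter fun s => ent s b ∈ bad0 (2 ^ e)).card ≤
      (2 * 2 ^ e + 1) ^ 2 * Y.card ^ (k - 1) := by
  obtain ⟨x₀, hx₀⟩ := hY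
  refine card_coord_le (P := fun s => ent s b ∈ bad0 (2 ^ e)) Y x₀ hx₀ ⟨b, hb⟩ fun s => ?_
  have hbad : (bad0 (2 ^ e)).card ≤ (2 * 2 ^ e + 1) ^ 2 := by
    unfold bad0
    refine card_image_le.trans ?_
    rw [card_product, Int.card_Icc, sq]
    have : (((2 ^ e : ℕ) : ℤ) + 1 - -((2 ^ e : ℕ) : ℤ)).toNat = 2 * 2 ^ e + 1 := by omega
    rw [this]
  refine le_trans ?_ hbad
  refine Finset.card_le_card_of_injOn (fun c : ℚ => c + 1) ?_ ?_
  · intro c hc
    rw [Finset.mem_coe, Finset.mem_filter, ent_update_self] at hc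
    exact hc.2
  · intro c _ c' _ he
    simp only [add_left_inj] at he
    exact he

/-- the block which begins with the index `b` is bad -/
def BadB {k : ℕ} (m D e b : ℕ) (s : Fin k → ℚ) : Prop :=
  ent s b ∈ bad0 (2 ^ e) ∨ ∃ j < m, BadE D e b j s

open Classical in
theorem card_bad_block' (Y : Finset ℚ) (hY : Y.Nonempty) {k m D e : ℕ} (hD : 1 ≤ D) (b : ℕ) (hb : b + m < k) :
    ((Fintype.piFinset fun _ : Fin k => Y).filter (BadB m D e b)).card ≤
      ((2 * 2 ^ e + 1) ^ 2 + m * (D * (2 ^ e) ^ (4 * D ^ m))) * Y.card ^ (k - 1) := by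
  set W := Fintype.piFinset fun _ : Fin k => Y with hW
  have hsub : W.filter (BadB m D e b) ⊆ (W.filter fun s => ent s b ∈ bad0 (2 ^ e)) ∪
      (range m).biUnion fun j => W.filter (BadE D e b j) := by
    intro s hs
    rw [Finset.mem_filter] at hs
    rw [Finset.mem_union, Finset.mem_biUnion]
    rcases hs.2 with h | ⟨j, hj, h⟩
    · left
      rw [Finset.mem_filter]
      exact ⟨hs.1, h⟩
    · right
      refine ⟨j, Finset.mem_range.mpr hj, ?_⟩
      rw [Finset.mem_filter]
      exact ⟨hs.1, h⟩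
  have h1 : ((range m).biUnion fun j => W.filter (BadE D e b j)).card ≤
      m * ((D * (2 ^ e) ^ (4 * D ^ m)) * Y.card ^ (k - 1)) := by
    refine Finset.card_biUnion_le.trans ?_
    have h2 : ∀ j ∈ range m, (W.filter (BadE D e b j)).card ≤ (D * (2 ^ e) ^ (4 * D ^ m)) * Y.card ^ (k - 1) := by
      intro j hj
      rw [Finset.mem_range] at hj
      refine (card_bad_entry Y hY b j (by omega)).trans (Nat.mul_le_mul_right _ (Nat.mul_le_mul_left _ ?_))
      refine Nat.pow_le_pow_right (by positivity) (Nat.mul_le_mul_left _ ?_)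
      exact Nat.pow_le_pow_right hD (by omega)
    refine (Finset.sum_le_sum h2).trans ?_
    rw [Finset.sum_const, Finset.card_range, smul_eq_mul]
  have h2 := card_bad_first Y hY (e := e) b (show b < k by omega)
  refine (Finset.card_le_card hsub).trans ((Finset.card_union_le _ _).trans ((Nat.add_le_add h2 h1).trans ?_))
  exact le_of_eq (by ring)

theorem num_block {m : ℕ} (hm : 1 ≤ m) :
    (2 * 2 ^ 6 + 1) ^ 2 + m * (2 * (2 ^ 6) ^ (4 * 2 ^ m)) ≤ 2 ^ 2 ^ (m + 5) := by
  have e1 : (2 ^ 6) ^ (4 * 2 ^ m) = 2 ^ (24 * 2 ^ m) := by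
    rw [← pow_mul]
    congr 1
    ring
  have e2 : 2 ^ 2 ^ (m + 5) = 2 ^ (24 * 2 ^ m) * 2 ^ (8 * 2 ^ m) := by
    rw [← pow_add]
    congr 1
    rw [pow_add]
    ring
  have hx : 2 ≤ 2 ^ m := by
    calc 2 = 2 ^ 1 := by norm_num
      _ ≤ 2 ^ m := Nat.pow_le_pow_right (by norm_num) hm
  have h4 : 2 ^ 48 ≤ 2 ^ (24 * 2 ^ m) := Nat.pow_le_pow_right (by norm_num) (by omega)
  have h5 : m < 2 ^ m := Nat.lt_two_pow_self
  have h6 : 4 * 2 ^ m ≤ 2 ^ (8 * 2 ^ m) := by
    have : 4 * 2 ^ m = 2 ^ (m + 2) := by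
      rw [pow_add]
      ring
    rw [this]
    apply Nat.pow_le_pow_right (by norm_num)
    omega
  have h7 : (2 * 2 ^ 6 + 1) ^ 2 ≤ 2 ^ 48 := by norm_num
  rw [e1, e2]
  generalize 2 ^ (24 * 2 ^ m) = y at *
  generalize 2 ^ (8 * 2 ^ m) = z at *
  have h8 : (2 * 2 ^ 6 + 1) ^ 2 ≤ y := h7.trans h4
  have h9 : 1 + 2 * m ≤ z := by omega
  calc (2 * 2 ^ 6 + 1) ^ 2 + m * (2 * y) ≤ y + m * (2 * y) := Nat.add_le_add_right h8 _
    _ = y * (1 + 2 * m) := by ring
    _ ≤ y * z := Nat.mul_le_mul_left _ h9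

open Classical in
theorem card_bad_block (Y : Finset ℚ) (hY : Y.Nonempty) {k m : ℕ} (hm : 1 ≤ m) (b : ℕ) (hb : b + m < k) :
    ((Fintype.piFinset fun _ : Fin k => Y).filter (BadB m 2 6 b)).card ≤
      2 ^ 2 ^ (m + 5) * Y.card ^ (k - 1) :=
  (card_bad_block' Y hY (by norm_num) b hb).trans (Nat.mul_le_mul_right _ (num_block hm))

/-- a good block has cost at most eight -/
theorem cost_good_block {k m : ℕ} (hm : 1 ≤ m) (b : ℕ) (s : Fin k → ℚ) (hs : ¬ BadB m 2 6 b s) :
    Cost {w | w = 0 ∨ ∃ i, b ≤ i ∧ i ≤ b + m ∧ w = 1 / ent s i} 8 := by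
  unfold BadB at hs
  push Not at hs
  obtain ⟨h1, h2⟩ := hs
  have h3 := gad_of_good (D := 2) (e := 6) hm (by norm_num) (ent s b) (nu s b) h1 (by
    intro j hj
    have h4 := h2 j hj
    unfold BadE at h4
    rw [not_not] at h4
    exact h4)
  obtain ⟨n, rfl⟩ : ∃ n, m = n + 1 := ⟨m - 1, by omega⟩
  have hp : 0 < 2 ^ n := by positivity
  have e1 : 2 * 6 * 2 ^ (n + 1) = 24 * 2 ^ n := by ring
  have e2 : (6 + 1) * (2 + 1) * 2 ^ (n + 1 - 1) = 21 * 2 ^ n := by
    rw [Nat.add_sub_cancel]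
  rw [e1, e2] at h3
  refine ⟨24 * 2 ^ n, 3 * 2 ^ n, by omega, by omega, ?_, ?_⟩
  · have e3 : 24 * 2 ^ n - 3 * 2 ^ n = 21 * 2 ^ n := by omega
    rw [e3]
    refine h3.mono ?_ le_rfl
    rintro w (rfl | ⟨i, hi1, hi2, rfl⟩)
    · exact Or.inl rfl
    · right
      refine ⟨ent s i, ?_, rfl⟩
      rcases Nat.eq_or_lt_of_le hi1 with h | h
      · left
        rw [← h]
      · right
        refine ⟨i - b - 1, by omega, ?_⟩
        unfold nu
        have : b + (i - b - 1 + 1) = i := by omega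
        rw [this]
        ring
  · push_cast
    linarith

/-- the slopes of a tuple -/
def slopes {k : ℕ} (s : Fin k → ℚ) : Finset ℚ := univ.image s

/-- a large range: blocks -/
theorem cost_blocks {k g n r : ℕ} (hg : 2 ≤ g) (hk : k = g * n + r) (s : Fin k → ℚ)
    (hs : ∀ i < n, ¬ BadB (g - 1) 2 6 (g * i) s) :
    Cost (insert 0 (((slopes s).image fun r : ℚ => 1 / (r + 1) : Finset ℚ) : Set ℚ)) (1 + 8 * n + r) := by
  classical
  have h1 := Cost.iUnion_fin (Cost.point 0) n
    (fun i : Fin n => {w | w = 0 ∨ ∃ j, g * (i : ℕ) ≤ j ∧ j ≤ g * i + (g - 1) ∧ w = 1 / ent s j})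
    (s := 8) (fun i => cost_good_block (by omega) _ s (hs i i.2))
  have h2 := h1.add_finset ((range r).image fun i => 1 / ent s (g * n + i))
  refine h2.mono ?_ ?_
  · intro w hw
    rcases hw with hw | hw
    · exact Or.inl (Or.inl hw)
    · rw [Finset.mem_coe, Finset.mem_image] at hw
      obtain ⟨x, hx, rfl⟩ := hw
      unfold slopes at hx
      rw [Finset.mem_image] at hx
      obtain ⟨i, _, rfl⟩ := hx
      have e1 : s i + 1 = ent s i := by
        unfold ent
        rw [dif_pos i.2]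
      rw [e1]
      have hi := i.2
      by_cases h3 : (i : ℕ) < g * n
      · left; right
        rw [Set.mem_iUnion]
        have h4 : (i : ℕ) / g < n := Nat.div_lt_of_lt_mul h3
        refine ⟨⟨(i : ℕ) / g, h4⟩, Or.inr ⟨i, ?_, ?_, rfl⟩⟩
        · exact Nat.mul_div_le _ _
        · have h5 := Nat.div_add_mod (i : ℕ) g
          have h6 := Nat.mod_lt (i : ℕ) (show 0 < g by omega)
          simp only
          omega
      · right
        rw [Finset.mem_coe, Finset.mem_image]
        refine ⟨i - g * n, Finset.mem_range.mpr (by omega), ?_⟩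
        have : g * n + ((i : ℕ) - g * n) = i := by omega
        rw [this]
  · have h3 : ((((range r).image fun i => 1 / ent s (g * n + i)).card : ℕ) : ℚ) ≤ r := by
      have := (Finset.card_image_le (s := range r) (f := fun i => 1 / ent s (g * n + i))).trans (by simp : (range r).card ≤ r)
      exact_mod_cast this
    linarith

/-- a small range -/
theorem cost_small {k H l u : ℕ} (Y : Finset ℚ) (hY1 : (-1 : ℚ) ∉ Y)
    (hYH : ∀ r ∈ Y, |r.num| ≤ H ∧ r.den ≤ H) (hl : 1 ≤ l) (hH : 4 * H + 1 ≤ 2 ^ l) (hu : 9 * l + 3 ≤ 2 ^ u)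
    (s : Fin k → ℚ) (hs : s ∈ Fintype.piFinset fun _ : Fin k => Y) :
    Cost (insert 0 (((slopes s).image fun r : ℚ => 1 / (r + 1) : Finset ℚ) : Set ℚ)) (1 + 9 * u) := by
  classical
  refine ((Cost.point 0).union (cost_height (2 * H) l u hl (by omega) hu)).mono ?_ le_rfl
  intro w hw
  rcases hw with hw | hw
  · exact Or.inl hw
  · right
    rw [Finset.mem_coe, Finset.mem_image] at hw
    obtain ⟨x, hx, rfl⟩ := hw
    unfold slopes at hx
    rw [Finset.mem_image] at hx
    obtain ⟨i, _, rfl⟩ := hx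
    rw [Fintype.mem_piFinset] at hs
    have h1 := hs i
    obtain ⟨h2, h3⟩ := hYH _ h1
    have hden : (s i + 1).den = (s i).den := by
      have := Rat.add_intCast_den (s i) 1
      simpa using this
    have hnum : (s i + 1).num = (s i).num + (s i).den := by
      have h4 : (s i + 1) = (((s i).num + (s i).den : ℤ) : ℚ) / ((s i).den : ℚ) := by
        have h5 : ((s i).den : ℚ) ≠ 0 := by exact_mod_cast (s i).den_nz
        push_cast
        rw [add_div, div_self h5, Rat.num_div_den]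
      have h5 : (s i + 1) * ((s i + 1).den : ℚ) = (s i + 1).num := Rat.mul_den_eq_num _
      rw [hden] at h5
      rw [h4] at h5
      have h6 : ((s i).den : ℚ) ≠ 0 := by exact_mod_cast (s i).den_nz
      rw [div_mul_cancel₀ _ h6, ← h4] at h5
      exact_mod_cast h5.symm
    refine ⟨s i + 1, ?_, ?_, ?_, rfl⟩
    · intro h
      have : s i = -1 := by linarith
      exact hY1 (this ▸ h1)
    · rw [hnum]
      have h4 := abs_add_le (s i).num ((s i).den : ℤ)
      have h5 : |((s i).den : ℤ)| = (s i).den := abs_of_nonneg (Int.natCast_nonneg _)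
      have h6 : ((s i).den : ℤ) ≤ H := by exact_mod_cast h3
      rw [h5] at h4
      push_cast
      linarith
    · rw [hden]
      omega

end Pool.Agent.V7H31.GS
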